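import Pool.Agent.Work.MP_936a99_q3.Interface

/-! # Block ADJ (MP_936a99, note 2913; helper25) -/

namespace Pool.Agent.Work.MP_936a99_q3

open Matrix Polynomial Pool.Agent.Work.MP_936a99_al_h7 Pool.Agent.Work.MP_936a99_q81

namespace ADJ

variable {R : Type} [CommRing R]

theorem U_mul (x y : R) : U x * U y = U (x + y) := by
  apply Subtype.ext
  rw [Matrix.SpecialLinearGroup.coe_mul]
  ext i j
  fin_cases i <;> fin_cases j <;> simp [U, Matrix.mul_apply, Fin.sum_univ_two, add_comm]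

theorem U_zero : U (0 : R) = 1 := by
  apply Subtype.ext
  ext i j
  fin_cases i <;> fin_cases j <;> simp [U]

theorem conj_U (g : S2 R) (h1 : (g : Matrix (Fin 2) (Fin 2) R) 1 0 = 0) (x : R) :
    g * U x * g⁻¹ = U ((g : Matrix (Fin 2) (Fin 2) R) 0 0 ^ 2 * x) := by
  rw [mul_inv_eq_iff_eq_mul]
  have hdet : (g : Matrix (Fin 2) (Fin 2) R) 0 0 * (g : Matrix (Fin 2) (Fin 2) R) 1 1 = 1 := by
    have h := g.2
    rw [Matrix.det_fin_two, h1] at h
    simpa using h
  apply Subtype.ext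
  rw [Matrix.SpecialLinearGroup.coe_mul, Matrix.SpecialLinearGroup.coe_mul]
  ext i j
  fin_cases i <;> fin_cases j
  · simp [U, Matrix.mul_apply, Fin.sum_univ_two, h1]
  · simp only [U, Matrix.mul_apply, Fin.sum_univ_two]
    simp
    linear_combination -((g : Matrix (Fin 2) (Fin 2) R) 0 0 * x) * hdet
  · simp [U, Matrix.mul_apply, Fin.sum_univ_two, h1]
  · simp [U, Matrix.mul_apply, Fin.sum_univ_two, h1]

theorem mul_val (a b : S2 R) : (a * b).1 = a.1 * b.1 := rfl

/-- the upper left entry -/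
def e00 (g : S2 R) : R := g.1 0 0

theorem list_ut (L : List (S2 R)) (h : ∀ g ∈ L, g.1 1 0 = 0) :
    L.prod.1 1 0 = 0 ∧ L.prod.1 0 0 = (L.map e00).prod := by
  induction L with
  | nil => exact ⟨by simp, by simp⟩
  | cons a L ih =>
    obtain ⟨h1, h2⟩ := ih (fun g hg => h g (List.mem_cons_of_mem _ hg))
    have ha := h a List.mem_cons_self
    rw [List.prod_cons, List.map_cons, List.prod_cons, mul_val]
    constructor
    · rw [Matrix.mul_apply, Fin.sum_univ_two, ha, h1]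
      ring
    · rw [Matrix.mul_apply, Fin.sum_univ_two, h1, h2, e00]
      ring

theorem list_U (L : List R) : (L.map U).prod = U L.sum := by
  induction L with
  | nil => simp [U_zero]
  | cons a L ih => rw [List.map_cons, List.prod_cons, ih, U_mul, List.sum_cons]

theorem mk_mul {p : ℕ} {m : (ZMod p)[X]} (a b : (ZMod p)[X]) : mk m (a * b) = mk m a * mk m b :=
  map_mul _ _ _

theorem mk_pow {p : ℕ} {m : (ZMod p)[X]} (a : (ZMod p)[X]) (n : ℕ) : mk m (a ^ n) = mk m a ^ n :=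
  map_pow _ _ _

theorem mk_one {p : ℕ} {m : (ZMod p)[X]} : mk m 1 = 1 := map_one _

theorem mk_sum {p : ℕ} {m : (ZMod p)[X]} {ι : Type} (s : Finset ι) (f : ι → (ZMod p)[X]) :
    mk m (∑ i ∈ s, f i) = ∑ i ∈ s, mk m (f i) := map_sum _ _ _

theorem mk_prod {p : ℕ} {m : (ZMod p)[X]} {ι : Type} (s : Finset ι) (f : ι → (ZMod p)[X]) :
    mk m (∏ i ∈ s, f i) = ∏ i ∈ s, mk m (f i) := map_prod _ _ _

theorem smul_mk {p : ℕ} {m : (ZMod p)[X]} (a : ZMod p) (f : (ZMod p)[X]) :
    a • mk m f = mk m (C a * f) := by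
  rw [mk_mul, Algebra.smul_def]
  rfl

end ADJ

open ADJ in
theorem adj_thm (hG : Stmt_GROW) : Stmt_ADJ := by
  intro p _ χ k hχ hk r hr
  set N := 4 * k + 2 with hN
  have hfin := finite_adj hχ
  set S : Set (AdjoinRoot χ) := {w | ∃ r : (ZMod p)[X], w = mk χ (r ^ 2) ∧
    ∃ l ∈ Dn (X * χ) N, (l : AdjoinRoot (X * χ)) = mk (X * χ) r} with hS
  have h1S : (1 : AdjoinRoot χ) ∈ S := by
    refine ⟨1, by rw [one_pow, mk_one], 1, ⟨Subgroup.one_mem _, 1, ?_, ?_, ?_⟩, ?_⟩
    · exact (reach_one _).mono (Nat.zero_le _)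
    · simp
    · simp
    · rw [mk_one, Units.val_one]
  obtain ⟨a, s, hs, hx⟩ := hG (ZMod p) (AdjoinRoot χ) k S (by rw [finrank_adj hχ, hk]) h1S
    (mk χ r) hr
  choose ρ hρ l hl hlρ using hs
  have hg : ∀ i j, ∃ g : S2 (AdjoinRoot (X * χ)), Reach (Let (X * χ)) N g ∧
      (g : Matrix (Fin 2) (Fin 2) (AdjoinRoot (X * χ))) 0 0 = l i j ∧
      (g : Matrix (Fin 2) (Fin 2) (AdjoinRoot (X * χ))) 1 0 = 0 := fun i j => (hl i j).2
  choose g hgR hg0 hg1 using hg
  -- the products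
  have hG1 : ∀ i, ∃ G : S2 (AdjoinRoot (X * χ)), Reach (Let (X * χ)) (k * N) G ∧
      (G : Matrix (Fin 2) (Fin 2) (AdjoinRoot (X * χ))) 0 0 = mk (X * χ) (∏ j, ρ i j) ∧
      (G : Matrix (Fin 2) (Fin 2) (AdjoinRoot (X * χ))) 1 0 = 0 := by
    intro i
    refine ⟨(List.ofFn (g i)).prod, ?_, ?_, ?_⟩
    · have h := Reach.listProd (A := Let (X * χ)) (L := N) (List.ofFn (g i)) (by
        intro x hx
        rw [List.mem_ofFn] at hx
        obtain ⟨j, rfl⟩ := hx
        exact hgR i j)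
      rwa [List.length_ofFn] at h
    · refine (list_ut (List.ofFn (g i)) ?_).2.trans ?_
      · intro x hx
        rw [List.mem_ofFn] at hx
        obtain ⟨j, rfl⟩ := hx
        exact hg1 i j
      · rw [List.map_ofFn, List.prod_ofFn, mk_prod]
        apply Finset.prod_congr rfl
        intro j _
        rw [← hlρ i j]
        exact hg0 i j
    · refine (list_ut (List.ofFn (g i)) ?_).1
      intro x hx
      rw [List.mem_ofFn] at hx
      obtain ⟨j, rfl⟩ := hx
      exact hg1 i j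
  choose G hGR hG0 hG10 using hG1
  -- conjugates of the letters
  have hC : ∀ i, Reach (Let (X * χ)) (2 * (k * N) + 1)
      (U (mk (X * χ) (X * (C (a i) * (∏ j, ρ i j) ^ 2)))) := by
    intro i
    have h1 : Reach (Let (X * χ)) 1 (U (mk (X * χ) (C (a i) * X))) :=
      reach_of_mem ⟨a i, Or.inl rfl⟩
    have h2 := ((hGR i).mul h1).mul (hGR i).inv
    rw [conj_U (G i) (hG10 i), hG0 i, ← mk_pow, ← mk_mul] at h2
    have h3 : (∏ j, ρ i j) ^ 2 * (C (a i) * X) = X * (C (a i) * (∏ j, ρ i j) ^ 2) := by ring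
    rw [h3] at h2
    exact h2.mono (by omega)
  have hfinal := Reach.listProd (A := Let (X * χ)) (L := 2 * (k * N) + 1)
    (List.ofFn fun i => U (mk (X * χ) (X * (C (a i) * (∏ j, ρ i j) ^ 2)))) (by
      intro x hx
      rw [List.mem_ofFn] at hx
      obtain ⟨i, rfl⟩ := hx
      exact hC i)
  rw [List.length_ofFn] at hfinal
  have hprod : (List.ofFn fun i => U (mk (X * χ) (X * (C (a i) * (∏ j, ρ i j) ^ 2)))).prod =
      U (mk (X * χ) (X * r)) := by
    have h1 : (List.ofFn fun i => U (mk (X * χ) (X * (C (a i) * (∏ j, ρ i j) ^ 2)))) =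
        (List.ofFn fun i => mk (X * χ) (X * (C (a i) * (∏ j, ρ i j) ^ 2))).map U := by
      rw [List.map_ofFn]
      rfl
    rw [h1, list_U, List.sum_ofFn, ← mk_sum, ← Finset.mul_sum]
    congr 1
    rw [AdjoinRoot.mk_eq_mk, ← mul_sub]
    apply mul_dvd_mul_left
    rw [← AdjoinRoot.mk_eq_mk]
    change mk χ _ = mk χ r
    rw [hx, mk_sum]
    apply Finset.sum_congr rfl
    intro i _
    have h2 : ∏ j, s i j = mk χ ((∏ j, ρ i j) ^ 2) := by
      rw [mk_pow, mk_prod, ← Finset.prod_pow]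
      apply Finset.prod_congr rfl
      intro j _
      rw [hρ i j, mk_pow]
    rw [h2, smul_mk]
  rw [hprod] at hfinal
  exact hfinal

end Pool.Agent.Work.MP_936a99_q3
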