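import Pool.Agent.Work.MP_936a99_q3.Interface

/-!
# COL: proportional columns
-/

namespace Pool.Agent.Work.MP_936a99_q3

open Matrix Polynomial Pool.Agent.Work.MP_936a99_al_h7 Pool.Agent.Work.MP_936a99_q81

namespace COL

variable {p : ℕ} [Fact p.Prime]

/-- `g` has the first column `(P, Q)` -/
def Cl (m : (ZMod p)[X]) (g : S2 (AdjoinRoot m)) (y : (ZMod p)[X] × (ZMod p)[X]) : Prop :=
  (g : Matrix (Fin 2) (Fin 2) (AdjoinRoot m)) 0 0 = AdjoinRoot.mk m y.1 ∧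
    (g : Matrix (Fin 2) (Fin 2) (AdjoinRoot m)) 1 0 = AdjoinRoot.mk m y.2

theorem lo_step {m : (ZMod p)[X]} {g : S2 (AdjoinRoot m)} {y : (ZMod p)[X] × (ZMod p)[X]}
    (h : Cl m g y) (b : ZMod p) : Cl m (Lo (mk m (C b)) * g) (y.1, y.2 + C b * y.1) := by
  obtain ⟨h1, h2⟩ := h
  constructor
  · rw [Matrix.SpecialLinearGroup.coe_mul]
    simp [Lo, Matrix.mul_apply, Fin.sum_univ_two, h1]
  · rw [Matrix.SpecialLinearGroup.coe_mul]
    simp [Lo, Matrix.mul_apply, Fin.sum_univ_two, h1, h2, add_comm]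

theorem u_step {m : (ZMod p)[X]} {g : S2 (AdjoinRoot m)} {y : (ZMod p)[X] × (ZMod p)[X]}
    (h : Cl m g y) (a : ZMod p) : Cl m (U (mk m (C a * X)) * g) (y.1 + C a * (X * y.2), y.2) := by
  obtain ⟨h1, h2⟩ := h
  constructor
  · rw [Matrix.SpecialLinearGroup.coe_mul]
    simp [U, Matrix.mul_apply, Fin.sum_univ_two, h1, h2, mul_assoc]
  · rw [Matrix.SpecialLinearGroup.coe_mul]
    simp [U, Matrix.mul_apply, Fin.sum_univ_two, h2]

theorem rU (m : (ZMod p)[X]) (a : ZMod p) : Reach (Let m) 1 (U (mk m (C a * X))) :=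
  reach_of_mem ⟨a, Or.inl rfl⟩

theorem rLo (m : (ZMod p)[X]) (a : ZMod p) : Reach (Let m) 1 (Lo (mk m (C a))) :=
  reach_of_mem ⟨a, Or.inr rfl⟩

theorem word_pq (m : (ZMod p)[X]) (k : ℕ) (w : Fin k → (ZMod p)ˣ × (ZMod p)ˣ) :
    ∃ g : S2 (AdjoinRoot m), Reach (Let m) (2 * k) g ∧ Cl m g (pq k w) := by
  induction k with
  | zero =>
    refine ⟨1, by simpa using reach_one (Let m), ?_, ?_⟩
    · simp [pq]
    · simp [pq]
  | succ k ih =>
    obtain ⟨g, hg, hc⟩ := ih (Fin.tail w)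
    refine ⟨U (mk m (C ((w 0).2 : ZMod p) * X)) * (Lo (mk m (C ((w 0).1 : ZMod p))) * g), ?_,
      u_step (lo_step hc _) _⟩
    refine ((rU m _).mul ((rLo m _).mul hg)).mono ?_
    omega

theorem word_FF (m : (ZMod p)[X]) (k : ℕ) (w : (Fin k → (ZMod p)ˣ × (ZMod p)ˣ) × (ZMod p)ˣ) :
    ∃ g : S2 (AdjoinRoot m), Reach (Let m) (2 * k + 1) g ∧ Cl m g (FF k w) := by
  obtain ⟨g, hg, hc⟩ := word_pq m k w.1
  refine ⟨Lo (mk m (C (w.2 : ZMod p))) * g, ?_, lo_step hc _⟩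
  refine ((rLo m _).mul hg).mono ?_
  omega

end COL

theorem col_thm : Stmt_COL := by
  intro p hp χ k w w' l hl h1 h2
  change AdjoinRoot.mk (X * χ) (FF k w).1 = (l : AdjoinRoot (X * χ)) *
    AdjoinRoot.mk (X * χ) (FF k w').1 at h1
  change AdjoinRoot.mk (X * χ) (FF k w).2 = (l : AdjoinRoot (X * χ)) *
    AdjoinRoot.mk (X * χ) (FF k w').2 at h2
  refine ⟨hl, ?_⟩
  obtain ⟨g, hg, hc1, hc2⟩ := COL.word_FF (X * χ) k w
  obtain ⟨g', hg', hc1', hc2'⟩ := COL.word_FF (X * χ) k w'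
  refine ⟨g'⁻¹ * g, (hg'.inv.mul hg).mono (by omega), ?_, ?_⟩
  · rw [Matrix.SpecialLinearGroup.coe_mul, Matrix.SpecialLinearGroup.coe_inv, Matrix.adjugate_fin_two,
      Matrix.mul_apply, Fin.sum_univ_two, hc1, hc2, h1, h2, ← hc1', ← hc2']
    have hd := g'.2
    rw [Matrix.det_fin_two] at hd
    simp only [Matrix.of_apply, Matrix.cons_val', Matrix.cons_val_zero, Matrix.cons_val_one,
      Matrix.cons_val_fin_one]
    linear_combination (l : AdjoinRoot (X * χ)) * hd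
  · rw [Matrix.SpecialLinearGroup.coe_mul, Matrix.SpecialLinearGroup.coe_inv, Matrix.adjugate_fin_two,
      Matrix.mul_apply, Fin.sum_univ_two, hc1, hc2, h1, h2, ← hc1', ← hc2']
    simp only [Matrix.of_apply, Matrix.cons_val', Matrix.cons_val_zero, Matrix.cons_val_one,
      Matrix.cons_val_fin_one]
    ring

end Pool.Agent.Work.MP_936a99_q3
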