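import Pool.Agent.Work.MP_936a99_q3.Interface

/-! # Block GROW (MP_936a99, note 2913; helper25) -/

namespace Pool.Agent.Work.MP_936a99_q3

namespace GROW

variable {K B : Type} [Field K] [CommRing B] [Algebra K B]

/-- products of `j` elements of `S` -/
def P (S : Set B) (j : ℕ) : Set B := {x | ∃ f : Fin j → B, (∀ i, f i ∈ S) ∧ x = ∏ i, f i}

theorem P_mul {S : Set B} {j : ℕ} {x y : B} (hx : x ∈ P S j) (hy : y ∈ S) : y * x ∈ P S (j + 1) := by
  obtain ⟨f, hf, rfl⟩ := hx
  refine ⟨Fin.cons y f, ?_, ?_⟩
  · intro i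
    refine Fin.cases ?_ ?_ i
    · simpa using hy
    · intro i
      simpa using hf i
  · rw [Fin.prod_univ_succ]
    simp

theorem P_mono {S : Set B} (h1 : (1 : B) ∈ S) (j : ℕ) : P S j ⊆ P S (j + 1) := by
  intro x hx
  have := P_mul hx h1
  rwa [one_mul] at this

/-- their span -/
def W (K : Type) [Field K] [Algebra K B] (S : Set B) (j : ℕ) : Submodule K B :=
  Submodule.span K (P S j)

theorem W_mono {S : Set B} (h1 : (1 : B) ∈ S) : Monotone (W K S) := by
  apply monotone_nat_of_le_succ
  intro j
  exact Submodule.span_mono (P_mono h1 j)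

theorem W_mul {S : Set B} {j : ℕ} {x y : B} (hx : x ∈ W K S j) (hy : y ∈ S) :
    y * x ∈ W K S (j + 1) := by
  unfold W at *
  induction hx using Submodule.span_induction with
  | mem x hx => exact Submodule.subset_span (P_mul hx hy)
  | zero => rw [mul_zero]; exact Submodule.zero_mem _
  | add a b _ _ ha hb => rw [mul_add]; exact Submodule.add_mem _ ha hb
  | smul c a _ ha => rw [mul_smul_comm]; exact Submodule.smul_mem _ _ ha

theorem one_mem_W {S : Set B} (h1 : (1 : B) ∈ S) (j : ℕ) : (1 : B) ∈ W K S j :=
  Submodule.subset_span ⟨fun _ => 1, fun _ => h1, by simp⟩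

theorem adjoin_le {S : Set B} (h1 : (1 : B) ∈ S) {j : ℕ} (hj : W K S (j + 1) = W K S j) {x : B}
    (hx : x ∈ Algebra.adjoin K S) : x ∈ W K S j := by
  have key : ∀ v ∈ W K S j, x * v ∈ W K S j := by
    induction hx using Algebra.adjoin_induction with
    | mem y hy =>
      intro v hv
      rw [← hj]
      exact W_mul hv hy
    | algebraMap c =>
      intro v hv
      rw [← Algebra.smul_def]
      exact Submodule.smul_mem _ _ hv
    | add a b _ _ ha hb =>
      intro v hv
      rw [add_mul]
      exact Submodule.add_mem _ (ha v hv) (hb v hv)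
    | mul a b _ _ ha hb =>
      intro v hv
      rw [mul_assoc]
      exact ha _ (hb v hv)
  have := key 1 (one_mem_W h1 j)
  rwa [mul_one] at this

theorem stable [Module.Finite K B] {S : Set B} (h1 : (1 : B) ∈ S) {k : ℕ}
    (hk : Module.finrank K B ≤ k) : ∃ j ≤ k, W K S (j + 1) = W K S j := by
  by_contra hcon
  push Not at hcon
  have key : ∀ j ≤ k + 1, j ≤ Module.finrank K (W K S j) := by
    intro j
    induction j with
    | zero => intro _; exact Nat.zero_le _
    | succ j ih =>
      intro hj
      have h2 := ih (by omega)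
      have h3 : W K S j < W K S (j + 1) :=
        lt_of_le_of_ne (W_mono h1 (Nat.le_succ j)) (fun h => hcon j (by omega) h.symm)
      have h4 := Submodule.finrank_lt_finrank_of_lt h3
      omega
  have h5 := key (k + 1) le_rfl
  have h6 := Submodule.finrank_le (W K S (k + 1))
  omega

end GROW

open GROW in
theorem grow_thm : Stmt_GROW := by
  classical
  intro K B _ _ _ _ k S hk h1 x hx
  obtain ⟨j, hj, hst⟩ := stable (K := K) h1 hk
  have hxk : x ∈ W K S k := W_mono h1 hj (adjoin_le h1 hst hx)
  obtain ⟨b, hbP, hbspan, hbli⟩ := exists_linearIndependent K (P S k)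
  have hxb : x ∈ Submodule.span K b := by
    rw [hbspan]
    exact hxk
  have hbfin : b.Finite := hbli.setFinite
  have hbcard : hbfin.toFinset.card ≤ k := by
    have := hbfin.fintype
    have h2 := hbli.fintype_card_le_finrank
    rw [Set.Finite.card_toFinset]
    exact h2.trans hk
  have hxb' : x ∈ Submodule.span K (hbfin.toFinset : Set B) := by
    rwa [Set.Finite.coe_toFinset]
  obtain ⟨c, hc⟩ := (Submodule.mem_span_finset'.1 hxb')
  have hrep : ∀ y : hbfin.toFinset, ∃ f : Fin k → B, (∀ i, f i ∈ S) ∧ (y : B) = ∏ i, f i := by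
    intro y
    have := hbP ((Set.Finite.mem_toFinset _).1 y.2)
    exact this
  choose F hFS hFp using hrep
  obtain ⟨e⟩ : Nonempty (hbfin.toFinset ↪ Fin k) := by
    apply Function.Embedding.nonempty_of_card_le
    rw [Fintype.card_coe, Fintype.card_fin]
    exact hbcard
  refine ⟨fun i => if h : ∃ y, e y = i then c h.choose else 0,
    fun i => if h : ∃ y, e y = i then F h.choose else fun _ => 1, ?_, ?_⟩
  · intro i j
    by_cases h : ∃ y, e y = i
    · simp only [h, dif_pos]
      exact hFS _ _
    · simp only [h, dif_neg, not_false_eq_true]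
      exact h1
  · rw [← hc]
    apply Fintype.sum_of_injective e e.injective
    · intro i hi
      have h : ¬ ∃ y, e y = i := fun ⟨y, hy⟩ => hi ⟨y, hy⟩
      simp only [h, dif_neg, not_false_eq_true, zero_smul]
    · intro y
      have h : ∃ y', e y' = e y := ⟨y, rfl⟩
      have h2 : h.choose = y := e.injective h.choose_spec
      simp only [h, dif_pos]
      rw [h2, ← hFp y]

end Pool.Agent.Work.MP_936a99_q3
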