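import Pool.Agent.Work.MP_936a99_q3.Interface

namespace Pool.Agent.Work.MP_936a99_q3

open Matrix Polynomial Pool.Agent.Work.MP_936a99_al_h7 Pool.Agent.Work.MP_936a99_q81

namespace IDA

variable {p : ℕ} [Fact p.Prime]

theorem sum_deg {h : (ZMod p)[X]} (hh : h ≠ 0) :
    ((UniqueFactorizationMonoid.normalizedFactors h).map fun π => π.natDegree).sum
      = h.natDegree := by
  classical
  have h1 : (0 : (ZMod p)[X]) ∉ UniqueFactorizationMonoid.normalizedFactors h :=
    UniqueFactorizationMonoid.zero_notMem_normalizedFactors h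
  have h2 := Polynomial.natDegree_multiset_prod _ h1
  rw [← h2]
  exact Polynomial.natDegree_eq_of_degree_eq
    (Polynomial.degree_eq_degree_of_associated
      (UniqueFactorizationMonoid.prod_normalizedFactors hh))

/-- a subset closed under differences and scalars, not containing a given element -/
theorem card_proper {V : Type} [AddCommGroup V] [Module (ZMod p) V] [DecidableEq V]
    (P Z : Finset V) (hZP : Z ⊆ P) (θ₀ : V) (h0 : θ₀ ∈ P) (h0' : θ₀ ∉ Z)
    (hP : ∀ (c : ZMod p), ∀ x ∈ P, ∀ y ∈ P, c • x + y ∈ P)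
    (hZ : ∀ x ∈ Z, ∀ y ∈ Z, ∀ c : ZMod p, c • (x - y) ∈ Z) :
    p * Z.card ≤ P.card := by
  classical
  have h1 : ((Finset.univ : Finset (ZMod p)) ×ˢ Z).card = p * Z.card := by
    rw [Finset.card_product, Finset.card_univ, ZMod.card]
  rw [← h1]
  refine Finset.card_le_card_of_injOn (fun q => q.1 • θ₀ + q.2) ?_ ?_
  · intro q hq
    rw [Finset.mem_coe, Finset.mem_product] at hq
    exact hP _ _ h0 _ (hZP hq.2)
  · rintro ⟨c, x⟩ hcx ⟨d, y⟩ hdy h
    rw [Finset.mem_coe, Finset.mem_product] at hcx hdy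
    simp only at h hcx hdy
    by_cases hcd : c = d
    · subst hcd
      rw [add_right_inj] at h
      rw [h]
    · exfalso
      apply h0'
      have hne : c - d ≠ 0 := sub_ne_zero.2 hcd
      have h2 : (c - d) • θ₀ = y - x := by
        rw [sub_smul]
        have : c • θ₀ + x - d • θ₀ - x = d • θ₀ + y - d • θ₀ - x := by rw [h]
        calc c • θ₀ - d • θ₀ = c • θ₀ + x - d • θ₀ - x := by abel
          _ = d • θ₀ + y - d • θ₀ - x := this
          _ = y - x := by abel
      have h3 : θ₀ = (c - d)⁻¹ • (y - x) := by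
        rw [← h2, smul_smul, inv_mul_cancel₀ hne, one_smul]
      rw [h3]
      exact hZ y hdy.2 x hcx.2 _

theorem double {V : Type} [DecidableEq V] (P : Finset V) (C : (ZMod p)[X] → V → Prop)
    [∀ π v, Decidable (C π v)] (ms : Multiset (ZMod p)[X])
    (h : ∀ π ∈ ms, p * (P.filter (C π)).card ≤ P.card) :
    p * ∑ v ∈ P, (ms.map fun π => if C π v then π.natDegree else 0).sum ≤
      P.card * (ms.map fun π => π.natDegree).sum := by
  induction ms using Multiset.induction_on with
  | empty => simp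
  | cons a s ih =>
    have h1 := ih fun π hπ => h π (Multiset.mem_cons_of_mem hπ)
    have h2 := h a (Multiset.mem_cons_self a s)
    simp only [Multiset.map_cons, Multiset.sum_cons]
    rw [Finset.sum_add_distrib, mul_add, mul_add]
    refine Nat.add_le_add ?_ h1
    rw [← Finset.sum_filter, Finset.sum_const, smul_eq_mul, ← mul_assoc]
    exact Nat.mul_le_mul_right _ h2

end IDA

theorem ida_thm : Stmt_IDA := by
  intro p _ χ k hχ hk W hW
  classical
  have hfin := finite_adj hχ
  have hfd : Finite (Module.Dual (ZMod p) (AdjoinRoot χ)) := Module.finite_of_finite (ZMod p)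
  have hft : Fintype (Module.Dual (ZMod p) (AdjoinRoot χ)) := Fintype.ofFinite _
  set P : Finset (Module.Dual (ZMod p) (AdjoinRoot χ)) :=
    Finset.univ.filter (fun θ => ∀ w ∈ W, θ w = 0) with hP
  have hmemP : ∀ θ, θ ∈ P ↔ ∀ w ∈ W, θ w = 0 := by
    intro θ; rw [hP, Finset.mem_filter]; simp
  have hkey : ∀ π ∈ UniqueFactorizationMonoid.normalizedFactors χ,
      p * (P.filter (fun θ => ∀ r : (ZMod p)[X], θ (mk χ (χ / π * r)) = 0)).card ≤ P.card := by
    intro π hπ
    have hirr := UniqueFactorizationMonoid.irreducible_of_normalized_factor π hπ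
    have hdvd := UniqueFactorizationMonoid.dvd_of_mem_normalizedFactors hπ
    have hmon : π.Monic := by
      rw [← UniqueFactorizationMonoid.normalize_normalized_factor π hπ]
      exact Polynomial.monic_normalize hirr.ne_zero
    obtain ⟨r, hr⟩ := hW π hmon hirr hdvd
    have h1 : ¬ ∀ φ ∈ W.dualAnnihilator, φ (mk χ (χ / π * r)) = 0 := by
      rw [Subspace.forall_mem_dualAnnihilator_apply_eq_zero_iff]
      exact hr
    push Not at h1
    obtain ⟨θ₀, hθ₀, hne⟩ := h1
    rw [Submodule.mem_dualAnnihilator] at hθ₀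
    refine IDA.card_proper (p := p) P _ (Finset.filter_subset _ _) θ₀ ((hmemP θ₀).2 hθ₀) ?_ ?_ ?_
    · rw [Finset.mem_filter, not_and]
      intro _ h2
      exact hne (h2 r)
    · intro c x hx y hy
      rw [hmemP] at hx hy ⊢
      intro w hw
      rw [LinearMap.add_apply, LinearMap.smul_apply, hx w hw, hy w hw, smul_zero, add_zero]
    · intro x hx y hy c
      rw [Finset.mem_filter, hmemP] at hx hy ⊢
      refine ⟨fun w hw => ?_, fun s => ?_⟩
      · rw [LinearMap.smul_apply, LinearMap.sub_apply, hx.1 w hw, hy.1 w hw, sub_zero, smul_zero]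
      · rw [LinearMap.smul_apply, LinearMap.sub_apply, hx.2 s, hy.2 s, sub_zero, smul_zero]
  have hdc := IDA.double (p := p) P
    (fun π θ => ∀ r : (ZMod p)[X], θ (mk χ (χ / π * r)) = 0) _ hkey
  rw [IDA.sum_deg hχ.ne_zero, hk] at hdc
  by_contra hcon
  push Not at hcon
  have hcard : 0 < P.card := Finset.card_pos.2 ⟨0, (hmemP 0).2 fun w _ => rfl⟩
  have h3 : P.card * k < ∑ θ ∈ P, p *
      ((UniqueFactorizationMonoid.normalizedFactors χ).map fun π =>
        if ∀ r : (ZMod p)[X], θ (mk χ (χ / π * r)) = 0 then π.natDegree else 0).sum := by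
    calc P.card * k = ∑ _θ ∈ P, k := by rw [Finset.sum_const, smul_eq_mul]
      _ < _ := by
        refine Finset.sum_lt_sum_of_nonempty (Finset.card_pos.1 hcard) ?_
        intro θ hθ
        have := hcon θ ((hmemP θ).1 hθ)
        convert this
  rw [← Finset.mul_sum] at h3
  exact absurd (lt_of_lt_of_le h3 hdc) (lt_irrefl _)

end Pool.Agent.Work.MP_936a99_q3
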