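import Pool.Agent.Work.MP_936a99_q3.Interface

namespace Pool.Agent.Work.MP_936a99_q3

open Matrix Polynomial Pool.Agent.Work.MP_936a99_al_h7 Pool.Agent.Work.MP_936a99_q81

namespace IDB

variable {p : ℕ} [Fact p.Prime]

theorem mk_mul' (m a b : (ZMod p)[X]) : mk m (a * b) = mk m a * mk m b :=
  map_mul (AdjoinRoot.mk m) a b

theorem mk_add' (m a b : (ZMod p)[X]) : mk m (a + b) = mk m a + mk m b :=
  map_add (AdjoinRoot.mk m) a b

theorem mk_self' (m : (ZMod p)[X]) : mk m m = 0 := AdjoinRoot.mk_self

/-- the annihilator of a functional -/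
def NN (χ : (ZMod p)[X]) (θ : Module.Dual (ZMod p) (AdjoinRoot χ)) : Ideal (ZMod p)[X] where
  carrier := {a | ∀ b, θ (mk χ (a * b)) = 0}
  zero_mem' := by intro b; simp
  add_mem' := by
    intro a a' ha ha' b
    rw [add_mul, mk_add', map_add, ha b, ha' b, add_zero]
  smul_mem' := by
    intro c a ha b
    rw [smul_eq_mul, mul_comm c a, mul_assoc]
    exact ha _

theorem sum_deg {h : (ZMod p)[X]} (hh : h ≠ 0) :
    ((UniqueFactorizationMonoid.normalizedFactors h).map fun π => π.natDegree).sum
      = h.natDegree := by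
  classical
  have h1 : (0 : (ZMod p)[X]) ∉ UniqueFactorizationMonoid.normalizedFactors h :=
    UniqueFactorizationMonoid.zero_notMem_normalizedFactors h
  have h2 := Polynomial.natDegree_multiset_prod _ h1
  rw [← h2]
  exact Polynomial.natDegree_eq_of_degree_eq
    (Polynomial.degree_eq_degree_of_associated
      (UniqueFactorizationMonoid.prod_normalizedFactors hh))

end IDB

theorem idb_thm : Stmt_IDB := by
  intro p _ χ k hχ hk W θ hθ
  classical
  have hfin := finite_adj hχ
  have hdim := finrank_adj hχ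
  have hpr := IsPrincipalIdealRing.principal (IDB.NN χ θ)
  obtain ⟨g, hg⟩ := hpr
  have hgmem : ∀ a, a ∈ IDB.NN χ θ ↔ g ∣ a := by
    intro a
    rw [hg]
    exact Ideal.mem_span_singleton
  have hχN : χ ∈ IDB.NN χ θ := by
    intro b
    rw [IDB.mk_mul', IDB.mk_self', zero_mul, map_zero]
  obtain ⟨h, hgh⟩ := (hgmem χ).1 hχN
  have hχ0 := hχ.ne_zero
  have hg0 : g ≠ 0 := by rintro rfl; rw [zero_mul] at hgh; exact hχ0 hgh
  have hh0 : h ≠ 0 := by rintro rfl; rw [mul_zero] at hgh; exact hχ0 hgh
  -- (i)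
  have hi : h.natDegree ≤ ((UniqueFactorizationMonoid.normalizedFactors χ).map fun π =>
      if ∀ r : (ZMod p)[X], θ (mk χ (χ / π * r)) = 0 then π.natDegree else 0).sum := by
    have hle : UniqueFactorizationMonoid.normalizedFactors h ≤
        UniqueFactorizationMonoid.normalizedFactors χ :=
      (UniqueFactorizationMonoid.dvd_iff_normalizedFactors_le_normalizedFactors hh0 hχ0).1
        ⟨g, by rw [hgh]; ring⟩
    rw [← IDB.sum_deg hh0]
    have h1 : ((UniqueFactorizationMonoid.normalizedFactors h).map fun π => π.natDegree) =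
        ((UniqueFactorizationMonoid.normalizedFactors h).map fun π =>
          if ∀ r : (ZMod p)[X], θ (mk χ (χ / π * r)) = 0 then π.natDegree else 0) := by
      refine Multiset.map_congr rfl ?_
      intro π hπ
      rw [if_pos]
      intro r
      obtain ⟨h', hh'⟩ := UniqueFactorizationMonoid.dvd_of_mem_normalizedFactors hπ
      have hπ0 : π ≠ 0 := by
        rintro rfl
        exact hh0 (by rw [hh', zero_mul])
      have h2 : χ / π = g * h' := by
        rw [hgh, hh', show g * (π * h') = π * (g * h') by ring]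
        exact mul_div_cancel_left₀ _ hπ0
      rw [h2, mul_assoc]
      exact (hgmem g).2 dvd_rfl (h' * r)
    rw [h1]
    obtain ⟨t, ht⟩ := Multiset.le_iff_exists_add.1 hle
    rw [ht, Multiset.map_add, Multiset.sum_add]
    exact Nat.le_add_right _ _
  -- (ii)
  set Ws : Submodule (ZMod p) (AdjoinRoot χ) := Subalgebra.toSubmodule W with hWs
  let φ : Ws →ₗ[ZMod p] Module.Dual (ZMod p) (AdjoinRoot χ) :=
    { toFun := fun w => θ ∘ₗ LinearMap.mulLeft (ZMod p) (w : AdjoinRoot χ)
      map_add' := fun a b => LinearMap.ext fun c => by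
        simp [add_mul]
      map_smul' := fun a b => LinearMap.ext fun c => by
        simp }
  have hφ : ∀ (w : Ws) (b : AdjoinRoot χ), φ w b = θ ((w : AdjoinRoot χ) * b) := fun w b => rfl
  have hrange : LinearMap.range φ ≤ Ws.dualAnnihilator := by
    rintro _ ⟨w, rfl⟩
    rw [Submodule.mem_dualAnnihilator]
    intro v hv
    rw [hφ]
    exact hθ _ (W.mul_mem w.2 hv)
  let L : (Fin h.natDegree → ZMod p) →ₗ[ZMod p] AdjoinRoot χ :=
    (AdjoinRoot.mkₐ χ).toLinearMap ∘ₗ (LinearMap.mulLeft (ZMod p) g) ∘ₗ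
      (degreeLT (ZMod p) h.natDegree).subtype ∘ₗ
        (degreeLTEquiv (ZMod p) h.natDegree).symm.toLinearMap
  have hker : (LinearMap.ker φ).map Ws.subtype ≤ LinearMap.range L := by
    rintro _ ⟨w, hw, rfl⟩
    obtain ⟨a, ha⟩ := AdjoinRoot.mk_surjective (w : AdjoinRoot χ)
    have haN : a ∈ IDB.NN χ θ := by
      intro b
      rw [IDB.mk_mul', show mk χ a = (w : AdjoinRoot χ) from ha]
      have := LinearMap.congr_fun (LinearMap.mem_ker.1 hw) (mk χ b)
      rw [hφ] at this
      exact this
    obtain ⟨c, hc⟩ := (hgmem a).1 haN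
    have hr : c % h ∈ degreeLT (ZMod p) h.natDegree := by
      rw [mem_degreeLT]
      have := Polynomial.degree_mod_lt c hh0
      rwa [Polynomial.degree_eq_natDegree hh0] at this
    refine ⟨degreeLTEquiv (ZMod p) h.natDegree ⟨c % h, hr⟩, ?_⟩
    have h1 : L (degreeLTEquiv (ZMod p) h.natDegree ⟨c % h, hr⟩) = mk χ (g * (c % h)) := by
      simp only [L, LinearMap.comp_apply, LinearEquiv.coe_coe, LinearEquiv.symm_apply_apply,
        Submodule.subtype_apply, LinearMap.mulLeft_apply]
      rfl
    rw [h1, Submodule.subtype_apply, ← ha, hc]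
    rw [AdjoinRoot.mk_eq_mk]
    refine ⟨-(c / h), ?_⟩
    have h2 := EuclideanDomain.div_add_mod c h
    rw [hgh]
    linear_combination g * h2
  have h3 := LinearMap.finrank_range_add_finrank_ker φ
  have h4 : Module.finrank (ZMod p) (LinearMap.range φ) ≤
      Module.finrank (ZMod p) Ws.dualAnnihilator := Submodule.finrank_mono hrange
  have h5 := Subspace.finrank_add_finrank_dualAnnihilator_eq Ws
  have h6 : Module.finrank (ZMod p) (LinearMap.ker φ) ≤ h.natDegree := by
    have e1 : Module.finrank (ZMod p) ((LinearMap.ker φ).map Ws.subtype) =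
        Module.finrank (ZMod p) (LinearMap.ker φ) :=
      Submodule.finrank_map_subtype_eq _ _
    rw [← e1]
    refine (Submodule.finrank_mono hker).trans ?_
    refine (LinearMap.finrank_range_le L).trans ?_
    simp
  have h7 : Module.finrank (ZMod p) W = Module.finrank (ZMod p) Ws := rfl
  rw [hdim, hk] at h5
  rw [h7]
  omega

end Pool.Agent.Work.MP_936a99_q3
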