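import Pool.Agent.Work.MP_936a99_q3.Interface

/-! # Block IDL (MP_936a99, note 2913; helper25) -/

namespace Pool.Agent.Work.MP_936a99_q3

open Matrix Polynomial Pool.Agent.Work.MP_936a99_al_h7 Pool.Agent.Work.MP_936a99_q81

theorem idl_thm (hA : Stmt_IDA) (hB : Stmt_IDB) : Stmt_IDL := by
  classical
  intro p hp χ k hχ hk W
  by_cases h : ∃ π : (ZMod p)[X], π.Monic ∧ Irreducible π ∧ π ∣ χ ∧
      ∀ r : (ZMod p)[X], mk χ (χ / π * r) ∈ W
  · right
    obtain ⟨π, hπm, hπi, hπd, hr⟩ := h
    have hmul : χ / π * π = χ := by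
      rw [mul_comm]
      exact EuclideanDomain.mul_div_cancel' hπm.ne_zero hπd
    have hcm : (χ / π).Monic := by
      apply Monic.of_mul_monic_right hπm
      rw [hmul]
      exact hχ
    refine ⟨χ / π, hcm, Dvd.intro _ hmul, ?_, hr⟩
    have h1 : (χ / π).natDegree + π.natDegree = k := by
      rw [← hcm.natDegree_mul hπm, hmul, hk]
    have h2 : 0 < π.natDegree := hπi.natDegree_pos
    omega
  · left
    push Not at h
    obtain ⟨θ, hθW, hθ⟩ := hA p χ k hχ hk W.toSubmodule (by
      intro π h1 h2 h3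
      obtain ⟨r, hr⟩ := h π h1 h2 h3
      exact ⟨r, hr⟩)
    have h2 := hB p χ k hχ hk W θ hθW
    set s := ((UniqueFactorizationMonoid.normalizedFactors χ).map fun π =>
      if ∀ r : (ZMod p)[X], θ (mk χ (χ / π * r)) = 0 then π.natDegree else 0).sum with hs
    have h3 : s ≤ k / p := by
      rw [Nat.le_div_iff_mul_le hp.out.pos, mul_comm]
      exact hθ
    omega

end Pool.Agent.Work.MP_936a99_q3
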