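import Pool.Agent.Work.MP_936a99_q3.Interface

/-!
# IND: the main lemma
-/

namespace Pool.Agent.Work.MP_936a99_q3

open Matrix Polynomial Pool.Agent.Work.MP_936a99_al_h7 Pool.Agent.Work.MP_936a99_q81

theorem N2_mono {a b : ℕ} (h : a ≤ b) : N2 a ≤ N2 b := by
  unfold N2
  gcongr

theorem ind_thm (hSTEP : Stmt_STEP) (hKER : Stmt_KER) (hLIFT : Stmt_LIFT) : Stmt_IND := by
  intro p hp hp23 χ k
  induction k using Nat.strong_induction_on generalizing χ with
  | _ k ih =>
  intro hχ hk r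
  by_cases hk0 : k = 0
  · subst hk0
    have h1 : χ = 1 := hχ.natDegree_eq_zero.1 hk
    have h2 : mk (X * χ) (X * r) = 0 := by
      rw [AdjoinRoot.mk_eq_zero, h1, mul_one]
      exact dvd_mul_right _ _
    rw [h2]
    have h3 : (U (0 : AdjoinRoot (X * χ))) = 1 := by
      apply Matrix.SpecialLinearGroup.ext
      intro i j
      fin_cases i <;> fin_cases j <;> simp [U]
    rw [h3]
    exact (reach_one _).mono (Nat.zero_le _)
  · obtain ⟨c, hc1, hc2, hc3, hc4⟩ := hSTEP p χ k hp23 hχ hk (by omega)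
    have h1 := ih c.natDegree hc3 c hc1 rfl r
    obtain ⟨g, hg1, hg2⟩ := hLIFT p χ c _ hc2 r h1
    set I : Ideal (AdjoinRoot (X * χ)) := Ideal.span {mk (X * χ) (X * c)} with hI
    set y : S2 (AdjoinRoot (X * χ)) := U (mk (X * χ) (X * r)) with hy
    have hz : Reach (Let (X * χ)) (5 * N2 k + 8) (g⁻¹ * y) := by
      refine hKER p χ c (N2 k) (by omega) hχ hc2 hc4 _ ?_
      intro i j
      have e1 : ((g⁻¹ * y : S2 (AdjoinRoot (X * χ))) :
          Matrix (Fin 2) (Fin 2) (AdjoinRoot (X * χ))) - 1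
          = ((g⁻¹ : S2 (AdjoinRoot (X * χ))) : Matrix (Fin 2) (Fin 2) (AdjoinRoot (X * χ)))
            * ((y : Matrix (Fin 2) (Fin 2) (AdjoinRoot (X * χ)))
              - (g : Matrix (Fin 2) (Fin 2) (AdjoinRoot (X * χ)))) := by
        rw [Matrix.mul_sub, ← Matrix.SpecialLinearGroup.coe_mul, ← Matrix.SpecialLinearGroup.coe_mul,
          inv_mul_cancel, Matrix.SpecialLinearGroup.coe_one]
      rw [← Matrix.sub_apply, e1, Matrix.mul_apply]
      refine Ideal.sum_mem _ fun t _ => Ideal.mul_mem_left _ _ ?_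
      have e2 := hg2 t j
      rw [Matrix.sub_apply]
      have e3 := I.neg_mem e2
      rwa [neg_sub] at e3
    have h2 : y = g * (g⁻¹ * y) := by rw [mul_inv_cancel_left]
    rw [h2]
    refine (hg1.mul hz).mono ?_
    have h3 : N2 c.natDegree ≤ N2 k := N2_mono hc3.le
    calc c.natDegree * (5 * N2 c.natDegree + 8) + (5 * N2 k + 8)
        ≤ c.natDegree * (5 * N2 k + 8) + (5 * N2 k + 8) := by gcongr
      _ = (c.natDegree + 1) * (5 * N2 k + 8) := by ring
      _ ≤ k * (5 * N2 k + 8) := Nat.mul_le_mul_right _ hc3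

end Pool.Agent.Work.MP_936a99_q3
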