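import Pool.Agent.Work.MP_936a99_q3.Interface

/-!
# KER: the kernel of the reduction modulo `X c`
-/

namespace Pool.Agent.Work.MP_936a99_q3

open Matrix Polynomial Pool.Agent.Work.MP_936a99_al_h7 Pool.Agent.Work.MP_936a99_q81

namespace KER

theorem reach_lo {p : ℕ} {m : (ZMod p)[X]} (a : ZMod p) : Reach (Let m) 1 (Lo (mk m (C a))) :=
  reach_of_mem ⟨a, Or.inr rfl⟩

theorem reach_V {p : ℕ} {m : (ZMod p)[X]} {N : ℕ} (a : ZMod p) {x : AdjoinRoot m}
    (h : Reach (Let m) N (U x)) : Reach (Let m) (N + 2) (V (mk m (C a)) x) := by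
  have h1 : -(AdjoinRoot.mk m (C a)) = AdjoinRoot.mk m (C (-a)) := by
    rw [C_neg, map_neg]
  unfold V
  rw [h1]
  exact (((reach_lo a).mul h).mul (reach_lo (-a))).mono (by omega)

theorem core (hKRR : Stmt_KRR) (hSTAB : Stmt_STAB) {p : ℕ} [Fact p.Prime] (m c : (ZMod p)[X])
    (N : ℕ) (hp3 : 3 ≤ p) (hm0 : m ≠ 0) (hem : X * c ∣ m)
    (hU : ∀ r : (ZMod p)[X], Reach (Let m) N (U (mk m (X * (c * r)))))
    (z : S2 (AdjoinRoot m)) (hz : ∀ i j, (z : Matrix (Fin 2) (Fin 2) (AdjoinRoot m)) i j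
      - (1 : Matrix (Fin 2) (Fin 2) (AdjoinRoot m)) i j ∈
      Ideal.span ({mk m (X * c)} : Set (AdjoinRoot m))) : Reach (Let m) (5 * N + 8) z := by
  set I : Ideal (AdjoinRoot m) := Ideal.span {mk m (X * c)} with hI
  have h2K : (2 : ZMod p) ≠ 0 := by
    intro h
    have h1 : ((2 : ℕ) : ZMod p) = 0 := by exact_mod_cast h
    rw [ZMod.natCast_eq_zero_iff] at h1
    exact absurd (Nat.le_of_dvd (by norm_num) h1) (by omega)
  have h2u : IsUnit (2 : AdjoinRoot m) := by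
    have h1 : IsUnit (C (2 : ZMod p)) := (isUnit_iff_ne_zero.2 h2K).map C
    have h3 := h1.map (AdjoinRoot.mk m)
    have h4 : AdjoinRoot.mk m (C (2 : ZMod p)) = 2 := by
      rw [show (C (2 : ZMod p)) = (2 : (ZMod p)[X]) from rfl, map_ofNat]
    rwa [h4] at h3
  obtain ⟨P, hP⟩ := AdjoinRoot.mk_surjective
    ((z : Matrix (Fin 2) (Fin 2) (AdjoinRoot m)) 1 0)
  obtain ⟨Q, hQ⟩ := AdjoinRoot.mk_surjective
    ((z : Matrix (Fin 2) (Fin 2) (AdjoinRoot m)) 1 1)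
  obtain ⟨A, hA⟩ := AdjoinRoot.mk_surjective
    ((z : Matrix (Fin 2) (Fin 2) (AdjoinRoot m)) 0 0)
  obtain ⟨B, hB⟩ := AdjoinRoot.mk_surjective
    ((z : Matrix (Fin 2) (Fin 2) (AdjoinRoot m)) 0 1)
  have hdet : m ∣ (A * Q - B * P) - 1 := by
    rw [← AdjoinRoot.mk_eq_zero, map_sub, map_sub, map_mul, map_mul, hP, hQ, hA, hB, map_one]
    have h1 := z.2
    rw [Matrix.det_fin_two] at h1
    rw [h1, sub_self]
  have hP0 : X * c ∣ P := by
    have h1 := hz 1 0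
    rw [Matrix.one_apply_ne (by decide), sub_zero, ← hP] at h1
    obtain ⟨r, hr⟩ := (mem_span_mk _).1 h1
    have h3 : m ∣ P - X * c * r := by
      rw [← AdjoinRoot.mk_eq_mk]
      exact hr
    have h4 : P = (P - X * c * r) + X * c * r := by ring
    rw [h4]
    exact dvd_add (hem.trans h3) (dvd_mul_right _ _)
  have hQ1 : X * c ∣ Q - 1 := by
    have h1 := hz 1 1
    rw [Matrix.one_apply_eq, ← hQ] at h1
    obtain ⟨r, hr⟩ := (mem_span_mk _).1 h1
    have h3 : m ∣ (Q - 1) - X * c * r := by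
      rw [← AdjoinRoot.mk_eq_mk, map_sub, map_one]
      exact hr
    have h4 : Q - 1 = ((Q - 1) - X * c * r) + X * c * r := by ring
    rw [h4]
    exact dvd_add (hem.trans h3) (dvd_mul_right _ _)
  have hC2 : ∀ π : (ZMod p)[X], Irreducible π → ¬ π ∣ C (2 : ZMod p) := by
    intro π hπ hd
    have h1 : IsUnit (C (2 : ZMod p)) := (isUnit_iff_ne_zero.2 h2K).map C
    exact hπ.not_isUnit (isUnit_of_dvd_unit hd h1)
  have hpr : ∀ π : (ZMod p)[X], Irreducible π → π ∣ m → ¬ (π ∣ P ∧ π ∣ Q) := by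
    rintro π hπ hπm ⟨h1, h2⟩
    have h3 : π ∣ (A * Q - B * P) - 1 := hπm.trans hdet
    have h4 : π ∣ (A * Q - B * P) := dvd_sub (Dvd.dvd.mul_left h2 A) (Dvd.dvd.mul_left h1 B)
    have h5 : π ∣ 1 := by
      have := dvd_sub h4 h3
      rwa [sub_sub_cancel] at this
    exact hπ.not_isUnit (isUnit_of_dvd_one h5)
  obtain ⟨y, hy⟩ := hSTAB (ZMod p) m (X * c) (P + Q) (P + C 2 * Q) hm0 (by
      intro π hπ hπm h1 h2
      have h3 : π ∣ Q := by
        have h4 := dvd_sub h2 h1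
        have h5 : P + C 2 * Q - (P + Q) = Q := by
          rw [show (C (2 : ZMod p)) = (2 : (ZMod p)[X]) from rfl]; ring
        rwa [h5] at h4
      have h6 : π ∣ P := by
        have h4 := dvd_sub h1 h3
        rwa [add_sub_cancel_right] at h4
      exact hpr π hπ hπm ⟨h6, h3⟩) (by
      intro π hπ hπm h1 h2
      have h3 : π ∣ P := h1.trans hP0
      have h4 : π ∣ Q - 1 := h1.trans hQ1
      have h5 : π ∣ C (2 : ZMod p) := by
        have h6 : C (2 : ZMod p) = (P + C 2 * Q) - P - C 2 * (Q - 1) := by ring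
        rw [h6]
        exact dvd_sub (dvd_sub h2 h3) (Dvd.dvd.mul_left h4 _)
      exact hC2 π hπ h5)
  have hunit : IsUnit ((z : Matrix (Fin 2) (Fin 2) (AdjoinRoot m)) 1 0
      + 2 * (z : Matrix (Fin 2) (Fin 2) (AdjoinRoot m)) 1 1
      + mk m (X * c * y) * ((z : Matrix (Fin 2) (Fin 2) (AdjoinRoot m)) 1 0
        + (z : Matrix (Fin 2) (Fin 2) (AdjoinRoot m)) 1 1)) := by
    have h1 : (z : Matrix (Fin 2) (Fin 2) (AdjoinRoot m)) 1 0
      + 2 * (z : Matrix (Fin 2) (Fin 2) (AdjoinRoot m)) 1 1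
      + mk m (X * c * y) * ((z : Matrix (Fin 2) (Fin 2) (AdjoinRoot m)) 1 0
        + (z : Matrix (Fin 2) (Fin 2) (AdjoinRoot m)) 1 1)
        = mk m (P + C 2 * Q + X * c * y * (P + Q)) := by
      rw [← hP, ← hQ, show (C (2 : ZMod p)) = (2 : (ZMod p)[X]) from rfl]
      simp only [map_add, map_mul, map_ofNat]
    rw [h1]
    obtain ⟨a, b, hab⟩ := hy
    have h3 : mk m b * mk m (P + C 2 * Q + X * c * y * (P + Q)) = 1 := by
      have h4 := congrArg (AdjoinRoot.mk m) hab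
      rw [map_add, map_mul, map_mul, AdjoinRoot.mk_self, mul_zero, zero_add, map_one] at h4
      exact h4
    exact IsUnit.of_mul_eq_one_right _ h3
  obtain ⟨x1, hx1, x2, hx2, x3, hx3, x4, hx4, x5, hx5, hz'⟩ :=
    hKRR (AdjoinRoot m) I z (mk m (X * c * y)) h2u hz ((mem_span_mk _).2 ⟨y, rfl⟩) hunit
  have hUI : ∀ x ∈ I, Reach (Let m) N (U x) := by
    intro x hx
    obtain ⟨r, rfl⟩ := (mem_span_mk _).1 hx
    rw [mul_assoc]
    exact hU r
  have e1 : (1 : AdjoinRoot m) = mk m (C 1) := by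
    show (1 : AdjoinRoot m) = AdjoinRoot.mk m (C 1)
    rw [C_1, map_one]
  have e2 : (2 : AdjoinRoot m) = mk m (C 2) := by
    show (2 : AdjoinRoot m) = AdjoinRoot.mk m (C 2)
    rw [show (C (2 : ZMod p)) = (2 : (ZMod p)[X]) from rfl, map_ofNat]
  have e3 : (-1 : AdjoinRoot m) = mk m (C (-1)) := by
    show (-1 : AdjoinRoot m) = AdjoinRoot.mk m (C (-1))
    rw [C_neg, C_1, map_neg, map_one]
  rw [hz', e3, e2, e1]
  exact (((((hUI _ hx1).mul (KER.reach_V 1 (hUI _ hx2))).mul (KER.reach_V (-1) (hUI _ hx3))).mul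
    (KER.reach_V 2 (hUI _ hx4))).mul (KER.reach_V 1 (hUI _ hx5))).mono (by omega)

end KER

theorem ker_thm (hKRR : Stmt_KRR) (hSTAB : Stmt_STAB) : Stmt_KER := by
  intro p hp χ c N hp3 hχ hc hU z hz
  exact KER.core hKRR hSTAB (X * χ) c N hp3 (mul_ne_zero X_ne_zero hχ.ne_zero)
    (mul_dvd_mul_left X hc) hU z hz

end Pool.Agent.Work.MP_936a99_q3
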