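import Pool.Agent.Work.MP_936a99_q3.Interface

/-!
# KRR: factorisation in a congruence subgroup
-/

namespace Pool.Agent.Work.MP_936a99_q3

open Matrix Polynomial Pool.Agent.Work.MP_936a99_al_h7 Pool.Agent.Work.MP_936a99_q81

namespace KRR

variable {R : Type} [CommRing R]

theorem U_coe (x : R) : (U x : Matrix (Fin 2) (Fin 2) R) = !![1, x; 0, 1] := rfl

theorem Lo_coe (x : R) : (Lo x : Matrix (Fin 2) (Fin 2) R) = !![1, 0; x, 1] := rfl

theorem V_coe (b x : R) : (V b x : Matrix (Fin 2) (Fin 2) R)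
    = !![1 - b * x, x; -(b ^ 2 * x), 1 + b * x] := by
  unfold V
  rw [Matrix.SpecialLinearGroup.coe_mul, Matrix.SpecialLinearGroup.coe_mul, U_coe, Lo_coe, Lo_coe]
  ext i j
  fin_cases i <;> fin_cases j <;> simp [Matrix.mul_apply, Fin.sum_univ_two] <;> ring

theorem V_neg (b x : R) : V b x * V b (-x) = 1 := by
  apply Matrix.SpecialLinearGroup.ext
  intro i j
  rw [Matrix.SpecialLinearGroup.coe_mul, V_coe, V_coe]
  fin_cases i <;> fin_cases j <;> simp [Matrix.mul_apply, Fin.sum_univ_two] <;> ring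

/-- congruent to `1` modulo `I` -/
def Cg (I : Ideal R) (g : S2 R) : Prop := ∀ i j, (g : Matrix (Fin 2) (Fin 2) R) i j
    - (1 : Matrix (Fin 2) (Fin 2) R) i j ∈ I

theorem Cg.mul {I : Ideal R} {g h : S2 R} (hg : Cg I g) (hh : Cg I h) : Cg I (g * h) := by
  intro i j
  have e1 : ((g * h : S2 R) : Matrix (Fin 2) (Fin 2) R) - 1
      = (g : Matrix (Fin 2) (Fin 2) R) * ((h : Matrix (Fin 2) (Fin 2) R) - 1)
        + ((g : Matrix (Fin 2) (Fin 2) R) - 1) := by
    rw [Matrix.SpecialLinearGroup.coe_mul, Matrix.mul_sub, Matrix.mul_one]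
    abel
  rw [← Matrix.sub_apply, e1, Matrix.add_apply, Matrix.mul_apply]
  refine I.add_mem (I.sum_mem fun t _ => I.mul_mem_left _ ?_) ?_
  · rw [Matrix.sub_apply]
    exact hh t j
  · rw [Matrix.sub_apply]
    exact hg i j

theorem Cg.V {I : Ideal R} (b : R) {x : R} (hx : x ∈ I) : Cg I (V b x) := by
  intro i j
  rw [V_coe]
  fin_cases i <;> fin_cases j <;> simp
  · exact I.mul_mem_left _ hx
  · exact hx
  · exact I.mul_mem_left _ hx
  · exact I.mul_mem_left _ hx

theorem key (Z : S2 R) (l y l' s : R)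
    (hZ : (Z : Matrix (Fin 2) (Fin 2) R) = !![l, y; 0, l']) (hdet : l * l' = 1)
    (h2s : 1 + 2 * s = l') :
    Z = U (l * (y - (s + -(s * l) - 2 * s * -(s * l)))) * V 1 s * V (-1) (-(s * l)) := by
  have hsl : l + 2 * s * l = 1 := by
    rw [← hdet, ← h2s]; ring
  have hP : ((V 1 s * V (-1) (-(s * l)) : S2 R) : Matrix (Fin 2) (Fin 2) R)
      = !![l, s + -(s * l) - 2 * s * -(s * l); 0, l'] := by
    rw [Matrix.SpecialLinearGroup.coe_mul, V_coe, V_coe]
    ext i j
    fin_cases i <;> fin_cases j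
    · simp [Matrix.mul_apply, Fin.sum_univ_two]
      linear_combination (-(1 - s)) * hsl
    · simp [Matrix.mul_apply, Fin.sum_univ_two]
      ring
    · simp [Matrix.mul_apply, Fin.sum_univ_two]
      linear_combination (s : R) * hsl
    · simp [Matrix.mul_apply, Fin.sum_univ_two]
      rw [← h2s]
      linear_combination (s : R) * hsl
  apply Matrix.SpecialLinearGroup.ext
  intro i j
  rw [mul_assoc, Matrix.SpecialLinearGroup.coe_mul (U _), hP, U_coe, hZ]
  fin_cases i <;> fin_cases j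
  · simp [Matrix.mul_apply, Fin.sum_univ_two]
  · simp [Matrix.mul_apply, Fin.sum_univ_two]
    linear_combination (-(y - (s + -(s * l) - 2 * s * -(s * l)))) * hdet
  · simp [Matrix.mul_apply, Fin.sum_univ_two]
  · simp [Matrix.mul_apply, Fin.sum_univ_two]

end KRR

theorem krr_thm : Stmt_KRR := by
  intro R _ I z x h2 hz hx hu
  obtain ⟨hh, hhe⟩ := h2.exists_right_inv
  obtain ⟨v, hv⟩ := hu.exists_right_inv
  set c := (z : Matrix (Fin 2) (Fin 2) R) 1 0 with hc
  set d := (z : Matrix (Fin 2) (Fin 2) R) 1 1 with hd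
  have hcI : c ∈ I := by
    have := hz 1 0
    rwa [Matrix.one_apply_ne (by decide), sub_zero] at this
  set t := (c - x * (c + d)) * hh * v with ht
  have htI : t ∈ I := by
    rw [ht]
    exact I.mul_mem_right _ (I.mul_mem_right _ (I.sub_mem hcI (I.mul_mem_right _ hx)))
  set Z : S2 R := z * V 1 x * V 2 t with hZ
  have hZI : KRR.Cg I Z := (KRR.Cg.mul (KRR.Cg.mul hz (KRR.Cg.V 1 hx)) (KRR.Cg.V 2 htI))
  set l := (Z : Matrix (Fin 2) (Fin 2) R) 0 0 with hl
  set y := (Z : Matrix (Fin 2) (Fin 2) R) 0 1 with hy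
  set l' := (Z : Matrix (Fin 2) (Fin 2) R) 1 1 with hl'
  have h10 : (Z : Matrix (Fin 2) (Fin 2) R) 1 0 = 0 := by
    rw [hZ, Matrix.SpecialLinearGroup.coe_mul, Matrix.SpecialLinearGroup.coe_mul, KRR.V_coe,
      KRR.V_coe]
    simp only [Matrix.mul_apply, Fin.sum_univ_two, Matrix.of_apply, Matrix.cons_val', Matrix.cons_val_zero,
      Matrix.cons_val_one, Matrix.cons_val_fin_one]
    rw [← hc, ← hd, ht]
    linear_combination (-(c - x * (c + d)) * (c + 2 * d + x * (c + d)) * v) * hhe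
      - (c - x * (c + d)) * hv
  have hdet : l * l' = 1 := by
    have h1 := Z.2
    rw [Matrix.det_fin_two, h10, mul_zero, sub_zero] at h1
    exact h1
  set s := (l' - 1) * hh with hs
  have hl1 : l' - 1 ∈ I := by
    have := hZI 1 1
    rwa [Matrix.one_apply_eq] at this
  have hsI : s ∈ I := I.mul_mem_right _ hl1
  have hyI : y ∈ I := by
    have := hZI 0 1
    rwa [Matrix.one_apply_ne (by decide), sub_zero] at this
  set s' := -(s * l) with hs'
  have hs'I : s' ∈ I := I.neg_mem (I.mul_mem_right _ hsI)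
  set y' := s + s' - 2 * s * s' with hy'
  have hy'I : y' ∈ I := I.sub_mem (I.add_mem hsI hs'I) (I.mul_mem_left _ hs'I)
  have h2s : 1 + 2 * s = l' := by
    rw [hs]
    linear_combination (l' - 1) * hhe
  refine ⟨l * (y - y'), I.mul_mem_left _ (I.sub_mem hyI hy'I), s, hsI, s', hs'I, -t,
    I.neg_mem htI, -x, I.neg_mem hx, ?_⟩
  have key : Z = U (l * (y - y')) * V 1 s * V (-1) s' :=
    KRR.key Z l y l' s (by
      ext i j
      fin_cases i <;> fin_cases j
      · exact hl.symm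
      · exact hy.symm
      · exact h10
      · exact hl'.symm) hdet h2s
  have h5 : z = Z * V 2 (-t) * V 1 (-x) := by
    rw [hZ, mul_assoc (z * V 1 x), KRR.V_neg, mul_one, mul_assoc, KRR.V_neg, mul_one]
  rw [h5]
  rw [key]

end Pool.Agent.Work.MP_936a99_q3
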