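import Pool.Agent.Work.MP_936a99_q3.Interface

namespace Pool.Agent.Work.MP_936a99_q3

open Matrix Polynomial Pool.Agent.Work.MP_936a99_al_h7 Pool.Agent.Work.MP_936a99_q81

namespace LAM

variable {p : ℕ} [Fact p.Prime]

/-- all polynomials of degree less than `d` -/
noncomputable def polys (p : ℕ) [Fact p.Prime] (d : ℕ) : Finset (ZMod p)[X] :=
  Finset.univ.map ⟨fun a : Fin d → ZMod p => ((degreeLTEquiv (ZMod p) d).symm a : (ZMod p)[X]),
    fun _ _ h => (degreeLTEquiv (ZMod p) d).symm.injective (Subtype.ext h)⟩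

theorem card_polys (d : ℕ) : (polys p d).card = p ^ d := by
  unfold polys
  rw [Finset.card_map, Finset.card_univ, Fintype.card_fun, ZMod.card, Fintype.card_fin]

theorem mem_polys {d : ℕ} {f : (ZMod p)[X]} (h : f ∈ polys p d) : f.degree < d := by
  unfold polys at h
  rw [Finset.mem_map] at h
  obtain ⟨a, -, rfl⟩ := h
  exact mem_degreeLT.1 ((degreeLTEquiv (ZMod p) d).symm a).2

theorem sub_one_pow_le (p d : ℕ) (hp : 1 ≤ p) (hd : 1 ≤ d) : (p - 1) ^ d ≤ p ^ d - 1 := by
  obtain ⟨q, rfl⟩ : ∃ q, p = q + 1 := ⟨p - 1, by omega⟩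
  obtain ⟨e, rfl⟩ : ∃ e, d = e + 1 := ⟨d - 1, by omega⟩
  have h1 : q ^ (e + 1) < (q + 1) ^ (e + 1) := Nat.pow_lt_pow_left (by omega) (by omega)
  simp only [Nat.add_sub_cancel]
  omega

/-- for a fixed residue, all but one of the lifts are good -/
theorem lifts (π χ' μ' : (ZMod p)[X]) (hπ : Irreducible π) (hπm : π.Monic)
    (hμ : IsCoprime χ' (1 + X * μ')) :
    ∃ T ⊆ polys p π.natDegree, (p - 1) ^ π.natDegree ≤ T.card ∧
      ∀ ν ∈ T, IsCoprime (π * χ') (1 + X * (μ' + χ' * ν)) := by
  classical
  have hd : 1 ≤ π.natDegree := hπ.natDegree_pos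
  set P := polys p π.natDegree with hP
  set B := P.filter (fun ν => π ∣ 1 + X * (μ' + χ' * ν)) with hB
  have hBc : B.card ≤ 1 := by
    rw [Finset.card_le_one]
    intro a ha b hb
    rw [hB, Finset.mem_filter] at ha hb
    have hdiv : π ∣ X * (χ' * (a - b)) := by
      have := dvd_sub ha.2 hb.2
      have e : 1 + X * (μ' + χ' * a) - (1 + X * (μ' + χ' * b)) = X * (χ' * (a - b)) := by ring
      rwa [e] at this
    have hpr := hπ.prime
    rcases hpr.dvd_or_dvd hdiv with h | h
    · exfalso
      have h1 : π ∣ 1 := by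
        have h2 : π ∣ X * (μ' + χ' * a) := h.mul_right _
        exact (dvd_add_left h2).1 ha.2
      exact hπ.not_isUnit (isUnit_of_dvd_one h1)
    · rcases hpr.dvd_or_dvd h with h | h
      · exfalso
        have h2 : π ∣ 1 + X * μ' := by
          have e : 1 + X * (μ' + χ' * a) = (1 + X * μ') + χ' * (X * a) := by ring
          have h3 := ha.2
          rw [e] at h3
          exact (dvd_add_left (h.mul_right _)).1 h3
        exact hπ.not_isUnit (hμ.isUnit_of_dvd' h h2)
      · by_contra hne
        have h0 : a - b ≠ 0 := sub_ne_zero.2 hne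
        have h1 := Polynomial.degree_le_of_dvd h h0
        have h2 : (a - b).degree < π.natDegree :=
          lt_of_le_of_lt (degree_sub_le _ _) (max_lt (mem_polys ha.1) (mem_polys hb.1))
        rw [Polynomial.degree_eq_natDegree hπm.ne_zero] at h1
        exact absurd (lt_of_le_of_lt h1 h2) (lt_irrefl _)
  refine ⟨P \ B, Finset.sdiff_subset, ?_, ?_⟩
  · have h1 : P.card - B.card ≤ (P \ B).card := Finset.le_card_sdiff B P
    have h2 := sub_one_pow_le p π.natDegree (Fact.out : p.Prime).one_lt.le hd
    rw [show P.card = p ^ π.natDegree from by rw [hP, card_polys]] at h1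
    omega
  · intro ν hν
    rw [Finset.mem_sdiff, hB, Finset.mem_filter, not_and] at hν
    have h1 : ¬ π ∣ 1 + X * (μ' + χ' * ν) := hν.2 hν.1
    have h2 : IsCoprime π (1 + X * (μ' + χ' * ν)) := (hπ.coprime_iff_not_dvd).2 h1
    have h3 : IsCoprime χ' (1 + X * (μ' + χ' * ν)) := by
      have e : 1 + X * (μ' + χ' * ν) = (1 + X * μ') + χ' * (X * ν) := by ring
      rw [e]
      exact hμ.add_mul_left_right _
    exact h2.mul_left h3

theorem main (k : ℕ) : ∀ χ : (ZMod p)[X], χ.Monic → χ.natDegree = k →
    ∃ S : Finset (ZMod p)[X], (p - 1) ^ k ≤ S.card ∧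
      ∀ μ ∈ S, μ.degree < k ∧ IsCoprime χ (1 + X * μ) := by
  classical
  induction k using Nat.strong_induction_on with
  | _ k ih =>
    intro χ hχ hk
    by_cases hu : IsUnit χ
    · have h1 : χ = 1 := hχ.eq_one_of_isUnit hu
      subst h1
      have hk0 : k = 0 := by rw [← hk]; simp
      subst hk0
      refine ⟨{0}, by simp, ?_⟩
      intro μ hμ
      rw [Finset.mem_singleton] at hμ
      subst hμ
      exact ⟨by simp, isCoprime_one_left⟩
    · obtain ⟨π, hπm, hπ, χ', rfl⟩ := Polynomial.exists_monic_irreducible_factor χ hu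
      have hχ'm : χ'.Monic := Monic.of_mul_monic_left hπm hχ
      have hdeg : (π * χ').natDegree = π.natDegree + χ'.natDegree :=
        Polynomial.natDegree_mul hπm.ne_zero hχ'm.ne_zero
      have hd : 1 ≤ π.natDegree := hπ.natDegree_pos
      obtain ⟨S', hS'c, hS'⟩ := ih χ'.natDegree (by omega) χ' hχ'm rfl
      choose! T hT1 hT2 hT3 using fun μ' (hμ' : IsCoprime χ' (1 + X * μ')) =>
        lifts (p := p) π χ' μ' hπ hπm hμ'
      refine ⟨(S'.sigma fun μ' => T μ').image (fun q => q.1 + χ' * q.2), ?_, ?_⟩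
      · rw [Finset.card_image_of_injOn, Finset.card_sigma]
        · calc (p - 1) ^ k = (p - 1) ^ χ'.natDegree * (p - 1) ^ π.natDegree := by
                rw [← pow_add, ← hk, hdeg, add_comm]
            _ ≤ S'.card * (p - 1) ^ π.natDegree := Nat.mul_le_mul_right _ hS'c
            _ = ∑ _μ ∈ S', (p - 1) ^ π.natDegree := by rw [Finset.sum_const, smul_eq_mul]
            _ ≤ ∑ μ ∈ S', (T μ).card := Finset.sum_le_sum fun μ hμ => hT2 μ (hS' μ hμ).2
        · rintro ⟨a, b⟩ hab ⟨c, d⟩ hcd h
          simp only [Finset.coe_sigma, Set.mem_sigma_iff, Finset.mem_coe] at hab hcd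
          simp only at h
          have hac : a = c := by
            by_contra hne
            have h0 : a - c ≠ 0 := sub_ne_zero.2 hne
            have h1 : χ' ∣ a - c := ⟨d - b, by linear_combination h⟩
            have h2 := Polynomial.degree_le_of_dvd h1 h0
            have h3 : (a - c).degree < χ'.natDegree :=
              lt_of_le_of_lt (degree_sub_le _ _) (max_lt (hS' a hab.1).1 (hS' c hcd.1).1)
            rw [Polynomial.degree_eq_natDegree hχ'm.ne_zero] at h2
            exact absurd (lt_of_le_of_lt h2 h3) (lt_irrefl _)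
          subst hac
          have hbd : b = d := by
            have h1 : χ' * b = χ' * d := by linear_combination h
            exact mul_left_cancel₀ hχ'm.ne_zero h1
          subst hbd
          rfl
      · intro μ hμ
        rw [Finset.mem_image] at hμ
        obtain ⟨⟨a, b⟩, hab, rfl⟩ := hμ
        rw [Finset.mem_sigma] at hab
        have ha := hS' a hab.1
        have hb1 := mem_polys (hT1 a ha.2 hab.2)
        refine ⟨?_, hT3 a ha.2 b hab.2⟩
        simp only
        have h1 : a.degree < (k : WithBot ℕ) := by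
          refine lt_of_lt_of_le ha.1 ?_
          rw [← hk, hdeg]
          exact_mod_cast Nat.le_add_left _ _
        have h2 : (χ' * b).degree < (k : WithBot ℕ) := by
          rw [Polynomial.degree_mul, Polynomial.degree_eq_natDegree hχ'm.ne_zero, ← hk, hdeg]
          by_cases hb0 : b = 0
          · subst hb0
            simp
          · rw [Polynomial.degree_eq_natDegree hb0] at hb1 ⊢
            have : b.natDegree < π.natDegree := by exact_mod_cast hb1
            have h4 : χ'.natDegree + b.natDegree < π.natDegree + χ'.natDegree := by omega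
            exact_mod_cast h4
        exact lt_of_le_of_lt (degree_add_le _ _) (max_lt h1 h2)

end LAM

theorem lam_thm : Stmt_LAM := by
  intro p _ χ k hχ hk
  classical
  obtain ⟨S, hS, hS2⟩ := LAM.main (p := p) k χ hχ hk
  refine hS.trans ?_
  have hXm : (X * χ).Monic := monic_X.mul hχ
  have hfin : Finite (AdjoinRoot (X * χ)) := finite_adj' hXm
  have hfinU : Finite (AdjoinRoot (X * χ))ˣ := inferInstance
  have hfinL : Finite (Lam (X * χ)) := inferInstance
  have hunit : ∀ μ ∈ S, IsUnit (mk (X * χ) (1 + X * μ)) := by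
    intro μ hμ
    have h1 : IsCoprime (X * χ) (1 + X * μ) := by
      refine IsCoprime.mul_left ?_ (hS2 μ hμ).2
      refine ⟨-μ, 1, by ring⟩
    obtain ⟨a, b, hab⟩ := h1
    have h2 : mk (X * χ) b * mk (X * χ) (1 + X * μ) = 1 := by
      rw [← map_mul]
      have e : b * (1 + X * μ) = 1 - a * (X * χ) := by linear_combination hab
      rw [e, map_sub, map_mul (AdjoinRoot.mk (X * χ)) a, AdjoinRoot.mk_self]
      simp
    exact IsUnit.of_mul_eq_one_right _ h2
  let F : S → Lam (X * χ) := fun μ => ⟨(hunit μ.1 μ.2).unit, by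
    rw [mem_Lam, IsUnit.unit_spec, mem_span_mk]
    exact ⟨μ.1, by rw [← map_one (AdjoinRoot.mk (X * χ)), ← map_sub]; congr 1; ring⟩⟩
  have hF : Function.Injective F := by
    intro a b hab
    have h1 : mk (X * χ) (1 + X * a.1) = mk (X * χ) (1 + X * b.1) := by
      have := congrArg (fun z : Lam (X * χ) => ((z : (AdjoinRoot (X * χ))ˣ) : AdjoinRoot (X * χ)))
        hab
      simpa [F] using this
    have h2 : X * χ ∣ X * (a.1 - b.1) := by
      have := AdjoinRoot.mk_eq_mk.1 h1
      have e : 1 + X * a.1 - (1 + X * b.1) = X * (a.1 - b.1) := by ring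
      rwa [e] at this
    have h3 : χ ∣ a.1 - b.1 := (mul_dvd_mul_iff_left X_ne_zero).1 h2
    by_contra hne
    have h0 : a.1 - b.1 ≠ 0 := sub_ne_zero.2 (fun h => hne (Subtype.ext h))
    have h4 := Polynomial.degree_le_of_dvd h3 h0
    have h5 : (a.1 - b.1).degree < k :=
      lt_of_le_of_lt (degree_sub_le _ _) (max_lt (hS2 a.1 a.2).1 (hS2 b.1 b.2).1)
    rw [Polynomial.degree_eq_natDegree hχ.ne_zero, hk] at h4
    exact absurd (lt_of_le_of_lt h4 h5) (lt_irrefl _)
  have := Nat.card_le_card_of_injective F hF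
  simpa using this

end Pool.Agent.Work.MP_936a99_q3
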