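import Pool.Agent.Work.MP_936a99_q3.PHI

/-!
# LIFT: lifting words
-/

namespace Pool.Agent.Work.MP_936a99_q3

open Matrix Polynomial Pool.Agent.Work.MP_936a99_al_h7 Pool.Agent.Work.MP_936a99_q81

namespace LIFT

variable {p : ℕ} [hp : Fact p.Prime]

theorem word (m m' : (ZMod p)[X]) (v : List (S2 (AdjoinRoot m)))
    (hv : ∀ x ∈ v, x ∈ Let m ∨ x⁻¹ ∈ Let m) :
    ∃ (E : Fin 2 → Fin 2 → (ZMod p)[X]) (g : S2 (AdjoinRoot m')), Reach (Let m') v.length g ∧
      (∀ i j, (v.prod : Matrix (Fin 2) (Fin 2) (AdjoinRoot m)) i j = mk m (E i j)) ∧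
      ∀ i j, (g : Matrix (Fin 2) (Fin 2) (AdjoinRoot m')) i j = mk m' (E i j) := by
  induction v with
  | nil =>
    refine ⟨fun i j => if i = j then 1 else 0, 1, by simpa using reach_one (Let m'), ?_, ?_⟩
    · intro i j
      by_cases h : i = j <;> simp [h]
    · intro i j
      by_cases h : i = j <;> simp [h]
  | cons x v ih =>
    obtain ⟨E, g, hg, h1, h2⟩ := ih (fun y hy => hv y (List.mem_cons_of_mem _ hy))
    obtain ⟨t, ht⟩ := PHI.letter (hv x List.mem_cons_self)
    rcases ht with rfl | rfl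
    · refine ⟨fun i j => if i = 0 then E 0 j + C t * X * E 1 j else E i j,
        U (mk m' (C t * X)) * g, ?_, ?_, ?_⟩
      · have h3 : Reach (Let m') 1 (U (mk m' (C t * X))) := reach_of_mem ⟨t, Or.inl rfl⟩
        rw [List.length_cons, Nat.add_comm]
        exact h3.mul hg
      · obtain ⟨a1, a2, a3, a4⟩ := PHI.U_mul (mk m (C t * X)) v.prod
        intro i j
        rw [List.prod_cons]
        fin_cases i <;> fin_cases j
        · exact a1.trans (by rw [h1, h1]; simp)
        · exact a2.trans (by rw [h1, h1]; simp)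
        · exact a3.trans (by rw [h1]; simp)
        · exact a4.trans (by rw [h1]; simp)
      · obtain ⟨a1, a2, a3, a4⟩ := PHI.U_mul (mk m' (C t * X)) g
        intro i j
        fin_cases i <;> fin_cases j
        · exact a1.trans (by rw [h2, h2]; simp)
        · exact a2.trans (by rw [h2, h2]; simp)
        · exact a3.trans (by rw [h2]; simp)
        · exact a4.trans (by rw [h2]; simp)
    · refine ⟨fun i j => if i = 1 then C t * E 0 j + E 1 j else E i j,
        Lo (mk m' (C t)) * g, ?_, ?_, ?_⟩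
      · have h3 : Reach (Let m') 1 (Lo (mk m' (C t))) := reach_of_mem ⟨t, Or.inr rfl⟩
        rw [List.length_cons, Nat.add_comm]
        exact h3.mul hg
      · obtain ⟨a1, a2, a3, a4⟩ := PHI.Lo_mul (mk m (C t)) v.prod
        intro i j
        rw [List.prod_cons]
        fin_cases i <;> fin_cases j
        · exact a1.trans (by rw [h1]; simp)
        · exact a2.trans (by rw [h1]; simp)
        · exact a3.trans (by rw [h1, h1]; simp)
        · exact a4.trans (by rw [h1, h1]; simp)
      · obtain ⟨a1, a2, a3, a4⟩ := PHI.Lo_mul (mk m' (C t)) g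
        intro i j
        fin_cases i <;> fin_cases j
        · exact a1.trans (by rw [h2]; simp)
        · exact a2.trans (by rw [h2]; simp)
        · exact a3.trans (by rw [h2, h2]; simp)
        · exact a4.trans (by rw [h2, h2]; simp)

/-- the entries of `U` as polynomials -/
noncomputable def Ue (q : (ZMod p)[X]) (i j : Fin 2) : (ZMod p)[X] :=
  if i = j then 1 else if i = 0 then q else 0

theorem U_entry (m q : (ZMod p)[X]) (i j : Fin 2) :
    (U (mk m q) : Matrix (Fin 2) (Fin 2) (AdjoinRoot m)) i j = mk m (Ue q i j) := by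
  fin_cases i <;> fin_cases j <;> simp [U, Ue]

end LIFT

theorem lift_thm : Stmt_LIFT := by
  intro p hp χ c N hcχ r hr
  obtain ⟨v, hv1, hv2, hv3⟩ := hr
  obtain ⟨E, g, hg, h1, h2⟩ := LIFT.word (X * c) (X * χ) v hv2
  refine ⟨g, hg.mono hv1, fun i j => ?_⟩
  have h3 : mk (X * c) (E i j) = mk (X * c) (LIFT.Ue (X * r) i j) := by
    rw [← h1, hv3, LIFT.U_entry]
  rw [AdjoinRoot.mk_eq_mk] at h3
  obtain ⟨q, hq⟩ := h3
  rw [h2, LIFT.U_entry, mem_span_mk]
  refine ⟨q, ?_⟩
  change AdjoinRoot.mk _ _ - AdjoinRoot.mk _ _ = AdjoinRoot.mk _ _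
  rw [← map_sub, hq]

end Pool.Agent.Work.MP_936a99_q3
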