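import Pool.Agent.Work.MP_936a99_q3.Interface

/-!
# NUM3: numbers
-/

namespace Pool.Agent.Work.MP_936a99_q3

namespace NUM3

theorem c1 : 23 ^ 5 * 4 ≤ 22 ^ 6 := by norm_num

theorem c2 : 23 ^ 34 * 4 ^ 6 < 22 ^ 38 := by norm_num

theorem c3 : 23 ^ 116 * 4 ^ 23 ≤ 22 ^ 138 := by norm_num

theorem c4 : 23 ^ 120 * 4 ^ 23 < 22 ^ 140 := by norm_num

theorem base (k s : ℕ) (hk : 6 ≤ k) (hs : s ≤ k / 23) :
    23 ^ (5 * k + 4 + s) * 4 ^ k < 22 ^ (6 * k + 2) := by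
  have h0 : 23 ^ (5 * k + 4 + s) * 4 ^ k ≤ 23 ^ (5 * k + 4 + k / 23) * 4 ^ k :=
    Nat.mul_le_mul_right _ (Nat.pow_le_pow_right (by norm_num) (by omega))
  refine h0.trans_lt ?_
  rcases Nat.eq_zero_or_pos (k / 23) with ha | ha
  · rw [ha]
    obtain ⟨j, rfl⟩ : ∃ j, k = 6 + j := ⟨k - 6, by omega⟩
    calc 23 ^ (5 * (6 + j) + 4 + 0) * 4 ^ (6 + j) = (23 ^ 34 * 4 ^ 6) * (23 ^ 5 * 4) ^ j := by
          rw [mul_pow, ← pow_mul]; ring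
      _ < 22 ^ 38 * (22 ^ 6) ^ j :=
          Nat.mul_lt_mul_of_lt_of_le c2 (Nat.pow_le_pow_left c1 j) (by positivity)
      _ = 22 ^ (6 * (6 + j) + 2) := by rw [← pow_mul]; ring
  · obtain ⟨a, ha'⟩ : ∃ a, k / 23 = a + 1 := ⟨k / 23 - 1, by omega⟩
    obtain ⟨b, hb⟩ : ∃ b, k = 23 * (a + 1) + b := ⟨k - 23 * (a + 1), by omega⟩
    rw [ha', hb]
    calc 23 ^ (5 * (23 * (a + 1) + b) + 4 + (a + 1)) * 4 ^ (23 * (a + 1) + b)
        = (23 ^ 120 * 4 ^ 23) * ((23 ^ 116 * 4 ^ 23) ^ a * (23 ^ 5 * 4) ^ b) := by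
          rw [mul_pow, mul_pow, ← pow_mul, ← pow_mul, ← pow_mul]; ring
      _ < 22 ^ 140 * ((22 ^ 138) ^ a * (22 ^ 6) ^ b) :=
          Nat.mul_lt_mul_of_lt_of_le c4
            (Nat.mul_le_mul (Nat.pow_le_pow_left c3 a) (Nat.pow_le_pow_left c1 b)) (by positivity)
      _ = 22 ^ (6 * (23 * (a + 1) + b) + 2) := by
          rw [← pow_mul, ← pow_mul]; ring

end NUM3

theorem num3_thm : Stmt_NUM3 := by
  intro p k hp hk
  obtain ⟨q, rfl⟩ : ∃ q, p = q + 1 := ⟨p - 1, by omega⟩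
  rw [Nat.add_sub_cancel]
  set s := k / (q + 1) with hs
  have hk6 : 6 ≤ k := by omega
  have hs' : s ≤ k / 23 := Nat.div_le_div_left hp (by norm_num)
  have hs2 : s + 2 ≤ k := by
    have : k / 23 + 2 ≤ k := by omega
    omega
  set m := 5 * k + 4 + s with hm
  have h1 : 22 ^ m * (q + 1) ^ m ≤ 23 ^ m * q ^ m := by
    rw [← mul_pow, ← mul_pow]
    exact Nat.pow_le_pow_left (by omega) m
  have h2 := NUM3.base k s hk6 hs'
  have h3 : 22 ^ (k - 2 - s) ≤ q ^ (k - 2 - s) := Nat.pow_le_pow_left (by omega) _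
  have e1 : 6 * k + 2 = m + (k - 2 - s) := by omega
  have hq : 0 < q := by omega
  have h4 : 22 ^ m * ((q + 1) ^ m * 4 ^ k) < 22 ^ m * q ^ (6 * k + 2) := by
    calc 22 ^ m * ((q + 1) ^ m * 4 ^ k) = (22 ^ m * (q + 1) ^ m) * 4 ^ k := by ring
      _ ≤ (23 ^ m * q ^ m) * 4 ^ k := Nat.mul_le_mul_right _ h1
      _ = (23 ^ m * 4 ^ k) * q ^ m := by ring
      _ < 22 ^ (6 * k + 2) * q ^ m := Nat.mul_lt_mul_of_pos_right h2 (by positivity)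
      _ = 22 ^ m * (22 ^ (k - 2 - s) * q ^ m) := by rw [e1, pow_add]; ring
      _ ≤ 22 ^ m * (q ^ (k - 2 - s) * q ^ m) := by gcongr
      _ = 22 ^ m * q ^ (6 * k + 2) := by
        rw [e1, pow_add q m]
        ring
  exact Nat.lt_of_mul_lt_mul_left h4

end Pool.Agent.Work.MP_936a99_q3
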