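import Pool.Agent.Work.MP_936a99_q3.Interface

/-!
# PHI: transfer of words modulo `X χ` to the group
-/

namespace Pool.Agent.Work.MP_936a99_q3

open Matrix Polynomial Pool.Agent.Work.MP_936a99_al_h7 Pool.Agent.Work.MP_936a99_q81

namespace PHI

section alg

variable {n k : ℕ} {K : Type*} [Field K]

theorem inter (X1 Y1 : Matrix (Fin k) (Fin k) K) (q : K[X]) :
    X1 * aeval (Y1 * X1) q = aeval (X1 * Y1) q * X1 := by
  induction q using Polynomial.induction_on' with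
  | add p q hp hq => rw [map_add, map_add, Matrix.mul_add, Matrix.add_mul, hp, hq]
  | monomial m a =>
    rw [← C_mul_X_pow_eq_monomial, map_mul, map_mul, aeval_C, aeval_C, map_pow, map_pow, aeval_X,
      aeval_X, ← Algebra.smul_def, ← Algebra.smul_def, Matrix.mul_smul, Matrix.smul_mul]
    congr 1
    induction m with
    | zero => simp
    | succ m ih =>
      rw [pow_succ, pow_succ, ← Matrix.mul_assoc, ih]
      simp only [Matrix.mul_assoc]

/-- the matrix of a word -/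
noncomputable def Phi (u u1 : Matrix (Fin n) (Fin k) K) (f f1 : Matrix (Fin k) (Fin n) K)
    (X1 Y1 : Matrix (Fin k) (Fin k) K) (a b d c : K[X]) : Matrix (Fin n) (Fin n) K :=
  1 + u * aeval (X1 * Y1) a * f + u * (aeval (X1 * Y1) b * X1) * f1
    + u1 * (Y1 * aeval (X1 * Y1) d) * f + u1 * aeval (Y1 * X1) c * f1

variable {u u1 : Matrix (Fin n) (Fin k) K} {f f1 : Matrix (Fin k) (Fin n) K}
  {X1 Y1 : Matrix (Fin k) (Fin k) K}

theorem phi_U (h00 : f * u = 0) (h01 : f * u1 = X1) (x : K) (a b d c : K[X]) :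
    (1 + x • (u * f)) * Phi u u1 f f1 X1 Y1 a b d c
      = Phi u u1 f f1 X1 Y1 (a + C x * (1 + X * d)) (b + C x * c) d c := by
  have e0 : ∀ {m : ℕ} (Z : Matrix (Fin k) (Fin m) K), f * (u * Z) = 0 := by
    intro m Z
    rw [← Matrix.mul_assoc, h00, Matrix.zero_mul]
  have e1 : ∀ {m : ℕ} (Z : Matrix (Fin k) (Fin m) K), f * (u1 * Z) = X1 * Z := by
    intro m Z
    rw [← Matrix.mul_assoc, h01]
  have e2 : ∀ {m : ℕ} (Z : Matrix (Fin k) (Fin m) K),
      X1 * (aeval (Y1 * X1) c * Z) = aeval (X1 * Y1) c * (X1 * Z) := by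
    intro m Z
    rw [← Matrix.mul_assoc, inter, Matrix.mul_assoc]
  have e3 : aeval (X1 * Y1) (a + C x * (1 + X * d))
      = aeval (X1 * Y1) a + x • (1 + X1 * (Y1 * aeval (X1 * Y1) d)) := by
    rw [map_add, map_mul, aeval_C, ← Algebra.smul_def, map_add, map_one, map_mul, aeval_X,
      Matrix.mul_assoc]
  have e4 : aeval (X1 * Y1) (b + C x * c) = aeval (X1 * Y1) b + x • aeval (X1 * Y1) c := by
    rw [map_add, map_mul, aeval_C, ← Algebra.smul_def]
  simp only [Phi, e3, e4]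
  simp only [Matrix.add_mul, Matrix.mul_add, Matrix.one_mul, Matrix.mul_one, Matrix.smul_mul,
    Matrix.mul_smul, Matrix.mul_assoc, e0, e1, e2, Matrix.mul_zero, smul_zero, smul_add]
  abel

theorem phi_Lo (h10 : f1 * u = Y1) (h11 : f1 * u1 = 0) (y : K) (a b d c : K[X]) :
    (1 + y • (u1 * f1)) * Phi u u1 f f1 X1 Y1 a b d c
      = Phi u u1 f f1 X1 Y1 a b (d + C y * a) (c + C y * (1 + X * b)) := by
  have e0 : ∀ {m : ℕ} (Z : Matrix (Fin k) (Fin m) K), f1 * (u1 * Z) = 0 := by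
    intro m Z
    rw [← Matrix.mul_assoc, h11, Matrix.zero_mul]
  have e1 : ∀ {m : ℕ} (Z : Matrix (Fin k) (Fin m) K), f1 * (u * Z) = Y1 * Z := by
    intro m Z
    rw [← Matrix.mul_assoc, h10]
  have e3 : aeval (Y1 * X1) (c + C y * (1 + X * b))
      = aeval (Y1 * X1) c + y • (1 + Y1 * (aeval (X1 * Y1) b * X1)) := by
    rw [map_add, map_mul, aeval_C, ← Algebra.smul_def, map_add, map_one, map_mul, aeval_X,
      Matrix.mul_assoc, inter]
  have e4 : aeval (X1 * Y1) (d + C y * a) = aeval (X1 * Y1) d + y • aeval (X1 * Y1) a := by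
    rw [map_add, map_mul, aeval_C, ← Algebra.smul_def]
  simp only [Phi, e3, e4]
  simp only [Matrix.add_mul, Matrix.mul_add, Matrix.one_mul, Matrix.mul_one, Matrix.smul_mul,
    Matrix.mul_smul, Matrix.mul_assoc, e0, e1, Matrix.mul_zero, smul_zero, smul_add]
  abel

end alg

section letters

variable {p : ℕ} {m : (ZMod p)[X]}

theorem U_inv {R : Type} [CommRing R] (x : R) : (U x)⁻¹ = U (-x) := by
  apply inv_eq_of_mul_eq_one_right
  apply Subtype.ext
  rw [Matrix.SpecialLinearGroup.coe_mul, Matrix.SpecialLinearGroup.coe_one]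
  ext i j
  fin_cases i <;> fin_cases j <;> simp [U]

theorem Lo_inv {R : Type} [CommRing R] (x : R) : (Lo x)⁻¹ = Lo (-x) := by
  apply inv_eq_of_mul_eq_one_right
  apply Subtype.ext
  rw [Matrix.SpecialLinearGroup.coe_mul, Matrix.SpecialLinearGroup.coe_one]
  ext i j
  fin_cases i <;> fin_cases j <;> simp [Lo]

theorem letter {x : S2 (AdjoinRoot m)} (hx : x ∈ Let m ∨ x⁻¹ ∈ Let m) :
    ∃ a : ZMod p, x = U (mk m (C a * X)) ∨ x = Lo (mk m (C a)) := by
  rcases hx with hx | ⟨a, hx | hx⟩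
  · exact hx
  · refine ⟨-a, Or.inl ?_⟩
    rw [← inv_inv x, hx, U_inv]
    congr 1
    rw [C_neg, neg_mul]
    exact (map_neg (AdjoinRoot.mk m) _).symm
  · refine ⟨-a, Or.inr ?_⟩
    rw [← inv_inv x, hx, Lo_inv]
    congr 1
    rw [C_neg]
    exact (map_neg (AdjoinRoot.mk m) _).symm

theorem U_mul {R : Type} [CommRing R] (x : R) (g : S2 R) :
    ((U x * g : S2 R) : Matrix (Fin 2) (Fin 2) R) 0 0 = g 0 0 + x * g 1 0 ∧
    ((U x * g : S2 R) : Matrix (Fin 2) (Fin 2) R) 0 1 = g 0 1 + x * g 1 1 ∧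
    ((U x * g : S2 R) : Matrix (Fin 2) (Fin 2) R) 1 0 = g 1 0 ∧
    ((U x * g : S2 R) : Matrix (Fin 2) (Fin 2) R) 1 1 = g 1 1 := by
  rw [Matrix.SpecialLinearGroup.coe_mul]
  simp only [Matrix.mul_apply, Fin.sum_univ_two]
  simp [U]

theorem Lo_mul {R : Type} [CommRing R] (x : R) (g : S2 R) :
    ((Lo x * g : S2 R) : Matrix (Fin 2) (Fin 2) R) 0 0 = g 0 0 ∧
    ((Lo x * g : S2 R) : Matrix (Fin 2) (Fin 2) R) 0 1 = g 0 1 ∧
    ((Lo x * g : S2 R) : Matrix (Fin 2) (Fin 2) R) 1 0 = x * g 0 0 + g 1 0 ∧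
    ((Lo x * g : S2 R) : Matrix (Fin 2) (Fin 2) R) 1 1 = x * g 0 1 + g 1 1 := by
  rw [Matrix.SpecialLinearGroup.coe_mul]
  simp only [Matrix.mul_apply, Fin.sum_univ_two]
  simp [Lo]

end letters

section words

variable {n k p : ℕ} [hp : Fact p.Prime]

theorem word {A : Set (SLn n (ZMod p))} {l Lh : ℕ} {w h : SLn n (ZMod p)}
    (hw : Reach A l w) (hh : Reach A Lh h) {u : Matrix (Fin n) (Fin k) (ZMod p)}
    {f : Matrix (Fin k) (Fin n) (ZMod p)} (hfu : f * u = 0) {c0 : ZMod p} (hc : c0 ≠ 0)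
    (hwc : (w : Matrix (Fin n) (Fin n) (ZMod p)) = c0 • (1 + u * f)) (m : (ZMod p)[X])
    (v : List (S2 (AdjoinRoot m))) (hv : ∀ x ∈ v, x ∈ Let m ∨ x⁻¹ ∈ Let m) :
    ∃ (a b d c : (ZMod p)[X]) (γ : SLn n (ZMod p)) (s : ZMod p), s ≠ 0 ∧
      Reach A (v.length * (p * l + 2 * Lh)) γ ∧
      (γ : Matrix (Fin n) (Fin n) (ZMod p))
        = s • Phi u ((h : Matrix (Fin n) (Fin n) (ZMod p)) * u) f
          (f * ((h⁻¹ : SLn n (ZMod p)) : Matrix (Fin n) (Fin n) (ZMod p))) (XX u f h) (YY u f h)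
          a b d c ∧
      (v.prod : Matrix (Fin 2) (Fin 2) (AdjoinRoot m)) 0 0 = mk m (1 + X * b) ∧
      (v.prod : Matrix (Fin 2) (Fin 2) (AdjoinRoot m)) 0 1 = mk m (X * a) ∧
      (v.prod : Matrix (Fin 2) (Fin 2) (AdjoinRoot m)) 1 0 = mk m c ∧
      (v.prod : Matrix (Fin 2) (Fin 2) (AdjoinRoot m)) 1 1 = mk m (1 + X * d) := by
  have hN : (u * f) * (u * f) = 0 := by
    rw [Matrix.mul_assoc, ← Matrix.mul_assoc f, hfu, Matrix.zero_mul, Matrix.mul_zero]
  have hpw : ∀ a : ZMod p, ((w ^ a.val : SLn n (ZMod p)) : Matrix (Fin n) (Fin n) (ZMod p))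
      = c0 ^ a.val • (1 + a • (u * f)) := by
    intro a
    rw [Matrix.SpecialLinearGroup.coe_pow, hwc, pow_shape hN, ZMod.natCast_zmod_val]
  have hr1 : ∀ a : ZMod p, Reach A (p * l + 2 * Lh) (w ^ a.val) := fun a =>
    (hw.pow a.val).mono ((Nat.mul_le_mul_right _ (ZMod.val_lt a).le).trans (by omega))
  have hr2 : ∀ a : ZMod p, Reach A (p * l + 2 * Lh) (h * w ^ a.val * h⁻¹) := fun a =>
    ((hh.mul ((hw.pow a.val).mono (Nat.mul_le_mul_right _ (ZMod.val_lt a).le))).mul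
      hh.inv).mono (by omega)
  have hh1 : ∀ {m : ℕ} (Z : Matrix (Fin n) (Fin m) (ZMod p)),
      ((h⁻¹ : SLn n (ZMod p)) : Matrix (Fin n) (Fin n) (ZMod p))
        * ((h : Matrix (Fin n) (Fin n) (ZMod p)) * Z) = Z := by
    intro m Z
    rw [← Matrix.mul_assoc, ← Matrix.SpecialLinearGroup.coe_mul, inv_mul_cancel,
      Matrix.SpecialLinearGroup.coe_one, Matrix.one_mul]
  have hh2 : (h : Matrix (Fin n) (Fin n) (ZMod p))
      * ((h⁻¹ : SLn n (ZMod p)) : Matrix (Fin n) (Fin n) (ZMod p)) = 1 := by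
    rw [← Matrix.SpecialLinearGroup.coe_mul, mul_inv_cancel, Matrix.SpecialLinearGroup.coe_one]
  set u1 : Matrix (Fin n) (Fin k) (ZMod p) := (h : Matrix (Fin n) (Fin n) (ZMod p)) * u with hu1
  set f1 : Matrix (Fin k) (Fin n) (ZMod p) :=
    f * ((h⁻¹ : SLn n (ZMod p)) : Matrix (Fin n) (Fin n) (ZMod p)) with hf1
  have h01 : f * u1 = XX u f h := by rw [hu1, XX, Matrix.mul_assoc]
  have h10 : f1 * u = YY u f h := by rw [hf1, YY]
  have h11 : f1 * u1 = 0 := by rw [hf1, hu1, Matrix.mul_assoc, hh1, hfu]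
  have hpw2 : ∀ a : ZMod p, ((h * w ^ a.val * h⁻¹ : SLn n (ZMod p)) :
      Matrix (Fin n) (Fin n) (ZMod p)) = c0 ^ a.val • (1 + a • (u1 * f1)) := by
    intro a
    rw [Matrix.SpecialLinearGroup.coe_mul, Matrix.SpecialLinearGroup.coe_mul, hpw, hu1, hf1]
    simp only [Matrix.mul_smul, Matrix.smul_mul, Matrix.mul_add, Matrix.add_mul, Matrix.mul_one,
      hh2, Matrix.mul_assoc]
  induction v with
  | nil =>
    refine ⟨0, 0, 0, 0, 1, 1, one_ne_zero, by simpa using reach_one A, ?_, ?_, ?_, ?_, ?_⟩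
    · simp [Phi]
    · simp
    · simp
    · simp
    · simp
  | cons x v ih =>
    obtain ⟨a, b, d, c, γ, s, hs, hγ, hsh, q1, q2, q3, q4⟩ :=
      ih (fun y hy => hv y (List.mem_cons_of_mem _ hy))
    obtain ⟨t, ht⟩ := letter (hv x List.mem_cons_self)
    have hlen : (p * l + 2 * Lh) + v.length * (p * l + 2 * Lh)
        ≤ (x :: v).length * (p * l + 2 * Lh) := by
      rw [List.length_cons, Nat.succ_mul v.length]
      omega
    rcases ht with rfl | rfl
    · refine ⟨a + C t * (1 + X * d), b + C t * c, d, c, w ^ t.val * γ, c0 ^ t.val * s,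
        mul_ne_zero (pow_ne_zero _ hc) hs, ((hr1 t).mul hγ).mono hlen, ?_, ?_, ?_, ?_, ?_⟩
      · rw [Matrix.SpecialLinearGroup.coe_mul, hpw, hsh, Matrix.smul_mul, Matrix.mul_smul,
          smul_smul, phi_U hfu h01]
      · rw [List.prod_cons, (U_mul _ _).1, q1, q3]
        simp only [map_add, map_mul, map_one]
        ring
      · rw [List.prod_cons, (U_mul _ _).2.1, q2, q4]
        simp only [map_add, map_mul, map_one]
        ring
      · rw [List.prod_cons, (U_mul _ _).2.2.1, q3]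
      · rw [List.prod_cons, (U_mul _ _).2.2.2, q4]
    · refine ⟨a, b, d + C t * a, c + C t * (1 + X * b), h * w ^ t.val * h⁻¹ * γ, c0 ^ t.val * s,
        mul_ne_zero (pow_ne_zero _ hc) hs, ((hr2 t).mul hγ).mono hlen, ?_, ?_, ?_, ?_, ?_⟩
      · rw [Matrix.SpecialLinearGroup.coe_mul, hpw2, hsh, Matrix.smul_mul, Matrix.mul_smul,
          smul_smul, phi_Lo h10 h11]
      · rw [List.prod_cons, (Lo_mul _ _).1, q1]
      · rw [List.prod_cons, (Lo_mul _ _).2.1, q2]
      · rw [List.prod_cons, (Lo_mul _ _).2.2.1, q1, q3]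
        simp only [map_add, map_mul, map_one]
        ring
      · rw [List.prod_cons, (Lo_mul _ _).2.2.2, q2, q4]
        simp only [map_add, map_mul, map_one]
        ring

end words

end PHI

theorem phi_thm : Stmt_PHI := by
  intro n k p hp A l Lh w h hw hh u f hfu c hc hwc N r hr
  set χ := (TT u f h).charpoly with hχ
  obtain ⟨v, hv1, hv2, hv3⟩ := hr
  obtain ⟨a, b, d, c', γ, s, hs, hγ, hsh, q1, q2, q3, q4⟩ :=
    PHI.word hw hh hfu hc hwc (X * χ) v hv2
  rw [hv3] at q1 q2 q3 q4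
  have kill : ∀ q : (ZMod p)[X], χ ∣ q → aeval (XX u f h * YY u f h) q = 0 := by
    rintro q ⟨z, rfl⟩
    have h1 : aeval (XX u f h * YY u f h) χ = 0 := Matrix.aeval_self_charpoly _
    rw [map_mul, h1, zero_mul]
  have kill' : ∀ q : (ZMod p)[X], χ ∣ q → aeval (YY u f h * XX u f h) q = 0 := by
    rintro q ⟨z, rfl⟩
    have h1 : aeval (YY u f h * XX u f h) χ = 0 := by
      have h2 : χ = (YY u f h * XX u f h).charpoly := by
        rw [hχ, TT, Matrix.charpoly_mul_comm]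
      rw [h2]
      exact Matrix.aeval_self_charpoly _
    rw [map_mul, h1, zero_mul]
  have hX : ∀ q : (ZMod p)[X], X * χ ∣ X * q → χ ∣ q := fun q hq =>
    (mul_dvd_mul_iff_left X_ne_zero).1 hq
  have hb : χ ∣ b := by
    apply hX
    have h1 : mk (X * χ) (1 + X * b) = mk (X * χ) 1 := by
      rw [← q1]
      refine Eq.trans ?_ (map_one (AdjoinRoot.mk (X * χ))).symm
      simp [U]
    rw [AdjoinRoot.mk_eq_mk] at h1
    simpa using h1
  have hd : χ ∣ d := by
    apply hX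
    have h1 : mk (X * χ) (1 + X * d) = mk (X * χ) 1 := by
      rw [← q4]
      refine Eq.trans ?_ (map_one (AdjoinRoot.mk (X * χ))).symm
      simp [U]
    rw [AdjoinRoot.mk_eq_mk] at h1
    simpa using h1
  have ha : χ ∣ a - r := by
    apply hX
    have h1 : mk (X * χ) (X * a) = mk (X * χ) (X * r) := by
      rw [← q2]
      simp [U]
    rw [AdjoinRoot.mk_eq_mk] at h1
    rwa [mul_sub]
  have hc' : χ ∣ c' := by
    have h1 : mk (X * χ) c' = 0 := by
      rw [← q3]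
      simp [U]
    rw [AdjoinRoot.mk_eq_zero] at h1
    exact (Dvd.intro_left X rfl).trans h1
  have ha' : aeval (XX u f h * YY u f h) a = aeval (XX u f h * YY u f h) r := by
    have h1 := kill _ ha
    rw [map_sub] at h1
    exact sub_eq_zero.1 h1
  refine ⟨γ, s, hs, hγ.mono (Nat.mul_le_mul_right _ hv1), ?_⟩
  rw [hsh, PHI.Phi, kill b hb, kill d hd, kill' c' hc', ha']
  simp only [Matrix.zero_mul, Matrix.mul_zero, add_zero]
  rfl

end Pool.Agent.Work.MP_936a99_q3
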