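import Pool.Agent.Work.MP_936a99_q3.Interface

/-!
# PIG: translates of the set of columns
-/

namespace Pool.Agent.Work.MP_936a99_q3

open Matrix Polynomial Pool.Agent.Work.MP_936a99_al_h7 Pool.Agent.Work.MP_936a99_q81

namespace PIG

variable {p : ℕ} [hp : Fact p.Prime]

theorem natDegree_Xmul {χ : (ZMod p)[X]} {k : ℕ} (hχ : χ.Monic) (hd : χ.natDegree = k) :
    (X * χ).Monic ∧ (X * χ).natDegree = k + 1 := by
  refine ⟨monic_X.mul hχ, ?_⟩
  rw [natDegree_mul X_ne_zero hχ.ne_zero, natDegree_X, hd, Nat.add_comm]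

/-- the column attached to the parameters `w`, times the unit `l` -/
noncomputable def F (χ : (ZMod p)[X]) (k : ℕ)
    (z : ((Fin k → (ZMod p)ˣ × (ZMod p)ˣ) × (ZMod p)ˣ) × Lam (X * χ)) :
    AdjoinRoot (X * χ) × AdjoinRoot (X * χ) :=
  ((((z.2 : (AdjoinRoot (X * χ))ˣ) : AdjoinRoot (X * χ)) * mk (X * χ) (FF k z.1).1),
    (((z.2 : (AdjoinRoot (X * χ))ˣ) : AdjoinRoot (X * χ)) * mk (X * χ) (FF k z.1).2))

theorem F_first (χ : (ZMod p)[X]) (k : ℕ)
    (z : ((Fin k → (ZMod p)ˣ × (ZMod p)ˣ) × (ZMod p)ˣ) × Lam (X * χ)) :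
    ∃ r : (ZMod p)[X], (F χ k z).1 - 1 = mk (X * χ) (X * r) := by
  rw [← mem_span_mk]
  have h1 : ((z.2 : (AdjoinRoot (X * χ))ˣ) : AdjoinRoot (X * χ)) - 1
      ∈ Ideal.span ({mk (X * χ) X} : Set (AdjoinRoot (X * χ))) := mem_Lam.1 z.2.2
  have h2 : mk (X * χ) (FF k z.1).1 - 1
      ∈ Ideal.span ({mk (X * χ) X} : Set (AdjoinRoot (X * χ))) := by
    rw [mem_span_mk]
    refine ⟨divX (FF k z.1).1, ?_⟩
    have h3 := divX_mul_X_add (FF k z.1).1
    rw [(FF_Om k z.1).1, C_1] at h3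
    have h4 : (FF k z.1).1 - 1 = X * divX (FF k z.1).1 := by linear_combination -h3
    rw [← h4]
    change AdjoinRoot.mk (X * χ) _ - 1 = AdjoinRoot.mk (X * χ) _
    rw [map_sub, map_one]
  have h5 : (F χ k z).1 - 1 = ((z.2 : (AdjoinRoot (X * χ))ˣ) : AdjoinRoot (X * χ))
      * (mk (X * χ) (FF k z.1).1 - 1)
      + (((z.2 : (AdjoinRoot (X * χ))ˣ) : AdjoinRoot (X * χ)) - 1) := by
    simp only [F]
    ring
  rw [h5]
  exact Ideal.add_mem _ (Ideal.mul_mem_left _ _ h2) h1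

theorem column_inj {χ : (ZMod p)[X]} {k : ℕ} (hχ : χ.Monic) (hd : χ.natDegree = k)
    {w w' : (Fin k → (ZMod p)ˣ × (ZMod p)ˣ) × (ZMod p)ˣ}
    (h1 : mk (X * χ) (FF k w).1 = mk (X * χ) (FF k w').1)
    (h2 : mk (X * χ) (FF k w).2 = mk (X * χ) (FF k w').2) : w = w' := by
  obtain ⟨hm, hmd⟩ := natDegree_Xmul hχ hd
  obtain ⟨-, a2, a3⟩ := FF_Om k w
  obtain ⟨-, b2, b3⟩ := FF_Om k w'
  rw [AdjoinRoot.mk_eq_mk] at h1 h2
  exact FF_inj k (Prod.ext (eq_of_dvd hmd a2 b2 h1) (eq_of_dvd hmd a3 b3 h2))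

end PIG

theorem pig_thm (hCOL : Stmt_COL) : Stmt_PIG := by
  classical
  intro p hp χ k hχ hd
  obtain ⟨hm, hmd⟩ := PIG.natDegree_Xmul hχ hd
  have := finite_adj' hm
  have := finite_adj' hχ
  have hfinU : Finite (AdjoinRoot (X * χ))ˣ := inferInstance
  let Par := (Fin k → (ZMod p)ˣ × (ZMod p)ˣ) × (ZMod p)ˣ
  let D := Subgroup.closure (Dn (X * χ) (4 * k + 2))
  choose r hr using PIG.F_first (p := p) χ k
  let E : Par × Lam (X * χ) → AdjoinRoot χ × AdjoinRoot (X * χ) :=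
    fun z => (mk χ (r z), (PIG.F χ k z).2)
  have hE : ∀ z z', E z = E z' → PIG.F χ k z = PIG.F χ k z' := by
    intro z z' h
    have h0 : (PIG.F χ k z).2 = (PIG.F χ k z').2 := by
      have := congrArg Prod.snd h
      exact this
    refine Prod.ext ?_ h0
    have h1 : mk χ (r z) = mk χ (r z') := congrArg Prod.fst h
    rw [AdjoinRoot.mk_eq_mk] at h1
    have h2 : mk (X * χ) (X * r z) = mk (X * χ) (X * r z') := by
      rw [AdjoinRoot.mk_eq_mk, ← mul_sub]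
      exact mul_dvd_mul_left _ h1
    rw [← hr z, ← hr z'] at h2
    exact sub_left_injective h2
  -- representatives
  let z0 : AdjoinRoot χ × AdjoinRoot (X * χ) → Par × Lam (X * χ) :=
    fun e => if h : ∃ z, E z = e then h.choose else (⟨fun _ => 1, 1⟩, 1)
  have hz0 : ∀ z, E (z0 (E z)) = E z := by
    intro z
    have h : ∃ z', E z' = E z := ⟨z, rfl⟩
    simp only [z0, dif_pos h]
    exact h.choose_spec
  have hmem : ∀ z, (((z0 (E z)).2⁻¹ * z.2 : Lam (X * χ)) : (AdjoinRoot (X * χ))ˣ) ∈ D := by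
    intro z
    apply Subgroup.subset_closure
    have h1 := hE _ _ (hz0 z)
    refine hCOL p χ k (z0 (E z)).1 z.1 _ (((z0 (E z)).2⁻¹ * z.2 : Lam (X * χ))).2 ?_ ?_
    · have h2 := congrArg Prod.fst h1
      simp only [PIG.F] at h2
      rw [Subgroup.coe_mul, Subgroup.coe_inv, Units.val_mul, mul_assoc, ← h2, ← mul_assoc,
        Units.inv_mul, one_mul]
    · have h2 := congrArg Prod.snd h1
      simp only [PIG.F] at h2
      rw [Subgroup.coe_mul, Subgroup.coe_inv, Units.val_mul, mul_assoc, ← h2, ← mul_assoc,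
        Units.inv_mul, one_mul]
  let G : Par × Lam (X * χ) → (AdjoinRoot χ × AdjoinRoot (X * χ)) × D :=
    fun z => (E z, ⟨_, hmem z⟩)
  have hG : Function.Injective G := by
    intro z z' h
    have h1 : E z = E z' := congrArg Prod.fst h
    have h2 : (((z0 (E z)).2⁻¹ * z.2 : Lam (X * χ)) : (AdjoinRoot (X * χ))ˣ)
        = (((z0 (E z')).2⁻¹ * z'.2 : Lam (X * χ)) : (AdjoinRoot (X * χ))ˣ) :=
      congrArg (fun y => ((y.2 : D) : (AdjoinRoot (X * χ))ˣ)) h
    rw [h1] at h2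
    have h3 : z.2 = z'.2 := mul_left_cancel (Subtype.ext h2)
    have h4 := hE _ _ h1
    have h5 := congrArg Prod.fst h4
    have h6 := congrArg Prod.snd h4
    simp only [PIG.F, h3] at h5 h6
    have h7 := PIG.column_inj hχ hd ((Units.mul_right_inj _).1 h5) ((Units.mul_right_inj _).1 h6)
    exact Prod.ext h7 h3
  have hcard := Nat.card_le_card_of_injective G hG
  rw [Nat.card_prod, Nat.card_prod (AdjoinRoot χ × AdjoinRoot (X * χ)), Nat.card_prod
    (AdjoinRoot χ), card_adj hχ, card_adj hm, hd, hmd] at hcard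
  have hpar : Nat.card Par = (p - 1) ^ (2 * k + 1) := by
    rw [Nat.card_eq_fintype_card, (card_pow_le (K := ZMod p) k).2, ZMod.card]
  rw [hpar] at hcard
  refine hcard.trans (le_of_eq ?_)
  rw [← pow_add]
  congr 2
  omega

end Pool.Agent.Work.MP_936a99_q3
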