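import Pool.Agent.Work.MP_936a99_q3.Interface

/-! Block SML: small degrees. -/

namespace Pool.Agent.Work.MP_936a99_q3

open Matrix Polynomial Pool.Agent.Work.MP_936a99_al_h7 Pool.Agent.Work.MP_936a99_q81

namespace SML

theorem pow_lt (p k : ℕ) (hk : 4 * k + 3 ≤ p) : p ^ (2 * k + 1) < 2 * (p - 1) ^ (2 * k + 1) := by
  have hp : (0 : ℝ) < p := by
    have : 0 < p := by omega
    exact_mod_cast this
  have h1 : (1 : ℝ) + ((2 * k + 1 : ℕ) : ℝ) * (-(1 / p)) ≤ (1 + -(1 / (p : ℝ))) ^ (2 * k + 1) := by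
    apply one_add_mul_le_pow
    have : (1 : ℝ) / p ≤ 1 := by
      rw [div_le_one hp]
      have : 1 ≤ p := by omega
      exact_mod_cast this
    linarith
  have h2 : ((p - 1 : ℕ) : ℝ) = p * (1 + -(1 / (p : ℝ))) := by
    rw [Nat.cast_sub (by omega)]
    field_simp
    push_cast
    ring
  have h3 : (1 : ℝ) / 2 < 1 + ((2 * k + 1 : ℕ) : ℝ) * (-(1 / p)) := by
    have h4 : ((4 * k + 3 : ℕ) : ℝ) ≤ p := by exact_mod_cast hk
    push_cast at h4 ⊢
    have h5 : (2 * (k : ℝ) + 1) / p < 1 / 2 := by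
      rw [div_lt_div_iff₀ hp (by norm_num)]
      linarith
    have h6 : (2 * (k : ℝ) + 1) * (-(1 / p)) = - ((2 * (k : ℝ) + 1) / p) := by ring
    rw [h6]; linarith
  have h7 : (p : ℝ) ^ (2 * k + 1) < 2 * ((p - 1 : ℕ) : ℝ) ^ (2 * k + 1) := by
    rw [h2, mul_pow]
    have h8 : (0 : ℝ) < (p : ℝ) ^ (2 * k + 1) := by positivity
    nlinarith
  exact_mod_cast h7

theorem mk_mul {p : ℕ} (m a b : (ZMod p)[X]) : mk m (a * b) = mk m a * mk m b :=
  map_mul (AdjoinRoot.mk m) a b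

theorem mk_add {p : ℕ} (m a b : (ZMod p)[X]) : mk m (a + b) = mk m a + mk m b :=
  map_add (AdjoinRoot.mk m) a b

theorem mk_sub {p : ℕ} (m a b : (ZMod p)[X]) : mk m (a - b) = mk m a - mk m b :=
  map_sub (AdjoinRoot.mk m) a b

theorem mk_one {p : ℕ} (m : (ZMod p)[X]) : mk m 1 = 1 := map_one (AdjoinRoot.mk m)

theorem mk_self {p : ℕ} (m : (ZMod p)[X]) : mk m m = 0 := AdjoinRoot.mk_self

end SML

theorem sml_thm (hpig : Stmt_PIG) (hwsq : Stmt_WSQ) : Stmt_SML := by
  intro p _ χ k hχ hk hk1 hp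
  classical
  have hpp : p.Prime := Fact.out
  have hm : (X * χ : (ZMod p)[X]).Monic := monic_X.mul hχ
  have hfin : Finite (AdjoinRoot (X * χ : (ZMod p)[X])) := finite_adj' hm
  have hfu : Finite (AdjoinRoot (X * χ : (ZMod p)[X]))ˣ := inferInstance
  have hle : Subgroup.closure (Dn (X * χ) (4 * k + 2)) ≤ Lam (X * χ) := by
    rw [Subgroup.closure_le]
    exact fun l hl => hl.1
  -- the group generated by `Dn` is `Lam`
  have heq : Subgroup.closure (Dn (X * χ) (4 * k + 2)) = Lam (X * χ) := by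
    have h1 := hpig p χ k hχ hk
    have h2 := SML.pow_lt p k hp
    have h3 := Subgroup.card_dvd_of_le hle
    have hD : 0 < Nat.card (Subgroup.closure (Dn (X * χ) (4 * k + 2))) := Nat.card_pos
    have h4 : Nat.card (Lam (X * χ)) < 2 * Nat.card (Subgroup.closure (Dn (X * χ) (4 * k + 2))) := by
      have h5 : 0 < (p - 1) ^ (2 * k + 1) := by
        have : 0 < p - 1 := by omega
        positivity
      have h6 : (p - 1) ^ (2 * k + 1) * Nat.card (Lam (X * χ)) <
          (p - 1) ^ (2 * k + 1) * (2 * Nat.card (Subgroup.closure (Dn (X * χ) (4 * k + 2)))) := by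
        calc (p - 1) ^ (2 * k + 1) * Nat.card (Lam (X * χ))
            ≤ p ^ (2 * k + 1) * Nat.card (Subgroup.closure (Dn (X * χ) (4 * k + 2))) := h1
          _ < (2 * (p - 1) ^ (2 * k + 1)) * Nat.card (Subgroup.closure (Dn (X * χ) (4 * k + 2))) :=
            Nat.mul_lt_mul_of_pos_right h2 hD
          _ = _ := by ring
      exact lt_of_mul_lt_mul_left h6 h5.le
    obtain ⟨c, hc⟩ := h3
    have hc1 : c < 2 := by
      by_contra hcon
      push Not at hcon
      rw [hc] at h4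
      nlinarith
    have hc0 : Nat.card (Lam (X * χ)) ≤ Nat.card (Subgroup.closure (Dn (X * χ) (4 * k + 2))) := by
      rw [hc]
      nlinarith
    exact Subgroup.eq_of_le_of_card_ge hle hc0
  -- squares of linear polynomials
  have hlin : ∀ y : ZMod p, y ≠ 0 → ¬ χ.IsRoot y →
      mk χ ((1 + C (-y⁻¹) * X) ^ 2) ∈ WW χ (4 * k + 2) := by
    intro y hy hroot
    have hfac : (1 + C (-y⁻¹) * X : (ZMod p)[X]) = C (-y⁻¹) * (X - C y) := by
      have : (C (-y⁻¹) * C y : (ZMod p)[X]) = -1 := by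
        rw [← C_mul]; simp [hy]
      linear_combination this
    have hu : IsUnit (C (-y⁻¹) : (ZMod p)[X]) := by
      rw [isUnit_C]; simp [hy]
    have hcop : IsCoprime (1 + C (-y⁻¹) * X : (ZMod p)[X]) (X * χ) := by
      refine IsCoprime.mul_right ⟨1, -C (-y⁻¹), by ring⟩ ?_
      rw [hfac]
      rw [isCoprime_mul_unit_left_left hu]
      rw [(irreducible_X_sub_C y).coprime_iff_not_dvd, dvd_iff_isRoot]
      exact hroot
    have hunit : IsUnit (mk (X * χ) (1 + C (-y⁻¹) * X)) := by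
      obtain ⟨a, b, hab⟩ := hcop
      refine IsUnit.of_mul_eq_one (mk (X * χ) a) ?_
      have := congrArg (mk (X * χ)) hab
      rw [SML.mk_add, SML.mk_mul, SML.mk_mul, SML.mk_self, mul_zero, add_zero, SML.mk_one] at this
      rw [mul_comm (mk (X * χ) (1 + C (-y⁻¹) * X))]
      exact this
    obtain ⟨l, hl⟩ := hunit
    have hmem : l ∈ Subgroup.closure (Dn (X * χ) (4 * k + 2)) := by
      rw [heq, mem_Lam, hl, mem_span_mk]
      refine ⟨C (-y⁻¹), ?_⟩
      rw [← SML.mk_one, ← SML.mk_sub]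
      congr 1
      ring
    exact hwsq p χ (4 * k + 2) hχ l hmem _ hl.symm
  -- two such values
  obtain ⟨y, hy, z, hz, hyz⟩ : ∃ y : ZMod p, (y ≠ 0 ∧ ¬ χ.IsRoot y) ∧ ∃ z : ZMod p,
      (z ≠ 0 ∧ ¬ χ.IsRoot z) ∧ y ≠ z := by
    have hχ0 : χ ≠ 0 := hχ.ne_zero
    have hcard : 1 < ((Finset.univ : Finset (ZMod p)) \ insert 0 χ.roots.toFinset).card := by
      have h1 : (insert 0 χ.roots.toFinset).card ≤ k + 1 := by
        refine (Finset.card_insert_le _ _).trans ?_
        have := Multiset.toFinset_card_le χ.roots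
        have := card_roots' χ
        omega
      have h2 := Finset.le_card_sdiff (insert 0 χ.roots.toFinset) (Finset.univ : Finset (ZMod p))
      rw [Finset.card_univ, ZMod.card] at h2
      omega
    obtain ⟨y, hy, z, hz, hyz⟩ := Finset.one_lt_card.1 hcard
    have conv : ∀ w : ZMod p, w ∈ ((Finset.univ : Finset (ZMod p)) \ insert 0 χ.roots.toFinset) →
        w ≠ 0 ∧ ¬ χ.IsRoot w := by
      intro w hw
      simp only [Finset.mem_sdiff, Finset.mem_univ, true_and, Finset.mem_insert, Multiset.mem_toFinset,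
        mem_roots hχ0, not_or] at hw
      exact hw
    exact ⟨y, conv y hy, z, conv z hz, hyz⟩
  have hA := hlin y hy.1 hy.2
  have hB := hlin z hz.1 hz.2
  set a : ZMod p := -y⁻¹ with ha
  set b : ZMod p := -z⁻¹ with hb
  have ha0 : a ≠ 0 := by rw [ha]; simp [hy.1]
  have hb0 : b ≠ 0 := by rw [hb]; simp [hz.1]
  have hab : b - a ≠ 0 := by
    rw [ha, hb]
    intro h
    apply hyz
    have : y⁻¹ = z⁻¹ := by linear_combination h
    exact inv_injective this
  have h2 : (2 : ZMod p) ≠ 0 := by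
    intro h
    have h3 : ((2 : ℕ) : ZMod p) = 0 := by exact_mod_cast h
    rw [ZMod.natCast_eq_zero_iff] at h3
    have := Nat.le_of_dvd (by norm_num) h3
    omega
  set e : ZMod p := 2 * a * b * (b - a) with he
  have he0 : e ≠ 0 := by
    rw [he]; exact mul_ne_zero (mul_ne_zero (mul_ne_zero h2 ha0) hb0) hab
  have hcomb : mk χ (C e * X + C (b ^ 2 - a ^ 2)) ∈ WW χ (4 * k + 2) := by
    have h5 : (C e * X + C (b ^ 2 - a ^ 2) : (ZMod p)[X]) =
        C (b ^ 2) * (1 + C a * X) ^ 2 - C (a ^ 2) * (1 + C b * X) ^ 2 := by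
      rw [he]
      simp only [map_mul, map_pow, map_sub, map_ofNat]
      ring
    have halg : ∀ c : ZMod p, mk χ (C c) = algebraMap (ZMod p) (AdjoinRoot χ) c := fun c => rfl
    rw [h5, SML.mk_sub, SML.mk_mul, SML.mk_mul, halg, halg]
    exact Subalgebra.sub_mem _ (Subalgebra.mul_mem _ (Subalgebra.algebraMap_mem _ _) hA)
      (Subalgebra.mul_mem _ (Subalgebra.algebraMap_mem _ _) hB)
  have hX : mk χ X ∈ WW χ (4 * k + 2) := by
    have halg : ∀ c : ZMod p, mk χ (C c) = algebraMap (ZMod p) (AdjoinRoot χ) c := fun c => rfl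
    have h6 : (X : (ZMod p)[X]) = C e⁻¹ * ((C e * X + C (b ^ 2 - a ^ 2)) - C (b ^ 2 - a ^ 2)) := by
      rw [add_sub_cancel_right, ← mul_assoc, ← C_mul, inv_mul_cancel₀ he0, C_1, one_mul]
    rw [h6, SML.mk_mul, SML.mk_sub, halg e⁻¹, halg (b ^ 2 - a ^ 2)]
    exact Subalgebra.mul_mem _ (Subalgebra.algebraMap_mem _ _)
      (Subalgebra.sub_mem _ hcomb (Subalgebra.algebraMap_mem _ _))
  rw [eq_top_iff, ← AdjoinRoot.adjoinRoot_eq_top (f := χ)]
  refine Algebra.adjoin_le ?_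
  rw [Set.singleton_subset_iff]
  exact hX

end Pool.Agent.Work.MP_936a99_q3
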