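import Pool.Agent.Work.MP_936a99_q3.Interface

/-!
# STAB: stable range
-/

namespace Pool.Agent.Work.MP_936a99_q3

open Matrix Polynomial Pool.Agent.Work.MP_936a99_al_h7 Pool.Agent.Work.MP_936a99_q81

theorem stab_thm : Stmt_STAB := by
  classical
  intro K _ m e b g hm0 h1 h2
  set S : Finset K[X] := (UniqueFactorizationMonoid.normalizedFactors m).toFinset.filter
    (fun π => ¬ π ∣ g) with hS
  refine ⟨∏ π ∈ S, π, ?_⟩
  set y : K[X] := ∏ π ∈ S, π with hy
  have key : ∀ π : K[X], Irreducible π → π ∣ m → ¬ π ∣ g + e * y * b := by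
    intro π hπ hπm hd
    by_cases hπg : π ∣ g
    · -- then `π ∣ e y b`
      have h3 : π ∣ e * y * b := (dvd_add_right hπg).1 hd
      have hpr : Prime π := hπ.prime
      rcases hpr.dvd_or_dvd h3 with h4 | h4
      · rcases hpr.dvd_or_dvd h4 with h5 | h5
        · exact h2 π hπ hπm h5 hπg
        · obtain ⟨q, hq, hπq⟩ := (hpr.dvd_finset_prod_iff _).1 h5
          rw [hS, Finset.mem_filter, Multiset.mem_toFinset] at hq
          have hqi : Irreducible q :=
            UniqueFactorizationMonoid.irreducible_of_normalized_factor q hq.1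
          have h6 : Associated π q := hπ.associated_of_dvd hqi hπq
          exact hq.2 (h6.symm.dvd.trans hπg)
      · exact h1 π hπ hπm h4 hπg
    · -- then `π ∣ y`
      obtain ⟨q, hq, hπq⟩ :=
        UniqueFactorizationMonoid.exists_mem_normalizedFactors_of_dvd hm0 hπ hπm
      have hqS : q ∈ S := by
        rw [hS, Finset.mem_filter, Multiset.mem_toFinset]
        exact ⟨hq, fun h => hπg (hπq.dvd.trans h)⟩
      have h3 : π ∣ y := hπq.dvd.trans (Finset.dvd_prod_of_mem _ hqS)
      have h4 : π ∣ e * y * b := Dvd.dvd.mul_right (Dvd.dvd.mul_left h3 e) b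
      exact hπg ((dvd_add_left h4).1 hd)
  refine isCoprime_of_prime_dvd ?_ ?_
  · rintro ⟨h, -⟩
    exact hm0 h
  · intro π hπ hπm
    exact key π hπ.irreducible hπm

end Pool.Agent.Work.MP_936a99_q3
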