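import Pool.Agent.Work.MP_936a99_q3.Interface

/-!
# STEP: a nonzero ideal of available elements
-/

namespace Pool.Agent.Work.MP_936a99_q3

open Matrix Polynomial Pool.Agent.Work.MP_936a99_al_h7 Pool.Agent.Work.MP_936a99_q81

theorem step_thm (hPIG : Stmt_PIG) (hLAM : Stmt_LAM) (hSQF : Stmt_SQF) (hWSQ : Stmt_WSQ)
    (hADJ : Stmt_ADJ) (hIDL : Stmt_IDL) (hSML : Stmt_SML) (hNUM : Stmt_NUM3) : Stmt_STEP := by
  intro p hp χ k hp23 hχ hk hk1
  by_cases hcase : 4 * k + 3 ≤ p
  · refine ⟨1, monic_one, one_dvd _, by rw [natDegree_one]; omega, fun r => ?_⟩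
    refine hADJ p χ k hχ hk (1 * r) ?_
    rw [hSML p χ k hχ hk hk1 hcase]
    exact Algebra.mem_top
  · rcases hIDL p χ k hχ hk (WW χ (4 * k + 2)) with h | h
    · exfalso
      have hfin := finite_adj hχ
      set D := Subgroup.closure (Dn (X * χ) (4 * k + 2)) with hD
      have h1 := hPIG p χ k hχ hk
      have h2 := hLAM p χ k hχ hk
      have h3 := hSQF p χ k (by omega) hχ hk D (WW χ (4 * k + 2) : Set (AdjoinRoot χ))
        (fun l hl r hr => hWSQ p χ (4 * k + 2) hχ l hl r hr)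
      have h4 : (WW χ (4 * k + 2) : Set (AdjoinRoot χ)).ncard
          = p ^ Module.finrank (ZMod p) (WW χ (4 * k + 2)) := by
        rw [← Nat.card_coe_set_eq]
        have := Module.natCard_eq_pow_finrank (K := ZMod p) (V := (WW χ (4 * k + 2)))
        rw [Nat.card_zmod] at this
        exact this
      have h5 := hNUM p k hp23 (by omega)
      set w := Module.finrank (ZMod p) (WW χ (4 * k + 2)) with hw
      rw [h4] at h3
      rw [← hD] at h1
      have hp1 : 1 ≤ p := by omega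
      have e1 : (p - 1) ^ (3 * k + 1) ≤ p ^ (2 * k + 2 + w) * 2 ^ k := by
        calc (p - 1) ^ (3 * k + 1) = (p - 1) ^ (2 * k + 1) * (p - 1) ^ k := by
              rw [← pow_add]; congr 1; omega
          _ ≤ (p - 1) ^ (2 * k + 1) * Nat.card (Lam (X * χ)) := Nat.mul_le_mul_left _ h2
          _ ≤ p ^ (2 * k + 1) * Nat.card D := h1
          _ ≤ p ^ (2 * k + 1) * (p ^ w * (2 ^ k * p)) := Nat.mul_le_mul_left _ h3
          _ = p ^ (2 * k + 2 + w) * 2 ^ k := by ring
      have e2 : (p - 1) ^ (6 * k + 2) ≤ p ^ (5 * k + 4 + k / p) * 4 ^ k := by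
        calc (p - 1) ^ (6 * k + 2) = ((p - 1) ^ (3 * k + 1)) ^ 2 := by
              rw [← pow_mul]; congr 1; omega
          _ ≤ (p ^ (2 * k + 2 + w) * 2 ^ k) ^ 2 := Nat.pow_le_pow_left e1 2
          _ = p ^ (4 * k + 4 + 2 * w) * 4 ^ k := by
              rw [mul_pow, ← pow_mul, ← pow_mul, show (4 : ℕ) = 2 ^ 2 by norm_num, ← pow_mul]
              congr 2 <;> ring
          _ ≤ p ^ (5 * k + 4 + k / p) * 4 ^ k := by
              refine Nat.mul_le_mul_right _ (Nat.pow_le_pow_right hp1 ?_)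
              omega
      omega
    · obtain ⟨c, hc1, hc2, hc3, hc4⟩ := h
      exact ⟨c, hc1, hc2, hc3, fun r => hADJ p χ k hχ hk (c * r) (hc4 r)⟩

end Pool.Agent.Work.MP_936a99_q3
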