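import Pool.Agent.Work.MP_936a99_q3.Interface

/-! # Block WSQ (MP_936a99, note 2913; helper25) -/

namespace Pool.Agent.Work.MP_936a99_q3

open Matrix Polynomial Pool.Agent.Work.MP_936a99_al_h7 Pool.Agent.Work.MP_936a99_q81

namespace WSQ

theorem mk_of_mk {p : ℕ} {χ a b : (ZMod p)[X]} (h : mk (X * χ) a = mk (X * χ) b) :
    mk χ a = mk χ b := by
  rw [AdjoinRoot.mk_eq_mk] at h ⊢
  exact (dvd_mul_left χ X).trans h

theorem mk_mul {p : ℕ} {m : (ZMod p)[X]} (a b : (ZMod p)[X]) : mk m (a * b) = mk m a * mk m b :=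
  map_mul _ _ _

theorem mk_pow {p : ℕ} {m : (ZMod p)[X]} (a : (ZMod p)[X]) (n : ℕ) : mk m (a ^ n) = mk m a ^ n :=
  map_pow _ _ _

theorem mk_one {p : ℕ} {m : (ZMod p)[X]} : mk m 1 = 1 := map_one _

end WSQ

open WSQ in
theorem wsq_thm : Stmt_WSQ := by
  intro p _ χ N hχ l hl
  have hm : (X * χ).Monic := monic_X.mul hχ
  have hfin := finite_adj' hm
  have hfinu : Finite (AdjoinRoot (X * χ))ˣ := inferInstance
  have hl' : l ∈ Submonoid.closure (Dn (X * χ) N) := by
    have h := Subgroup.closure_toSubmonoid_of_finite (G := (AdjoinRoot (X * χ))ˣ) (s := Dn (X * χ) N)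
    rw [← h]
    exact hl
  clear hl
  induction hl' using Submonoid.closure_induction with
  | mem l hl =>
    intro r hr
    exact Algebra.subset_adjoin ⟨r, rfl, l, hl, hr.symm⟩
  | one =>
    intro r hr
    have h1 : mk (X * χ) r = mk (X * χ) 1 := by
      rw [hr, mk_one, Units.val_one]
    have h2 := mk_of_mk h1
    have h3 : mk χ (r ^ 2) = 1 := by
      rw [mk_pow, h2, mk_one, one_pow]
    rw [h3]
    exact one_mem _
  | mul a b _ _ ha hb =>
    intro r hr
    obtain ⟨ra, hra⟩ := AdjoinRoot.mk_surjective (a : AdjoinRoot (X * χ))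
    obtain ⟨rb, hrb⟩ := AdjoinRoot.mk_surjective (b : AdjoinRoot (X * χ))
    have h1 : mk (X * χ) r = mk (X * χ) (ra * rb) := by
      rw [hr, mk_mul, Units.val_mul, ← hra, ← hrb]
    have h2 := mk_of_mk h1
    have h3 : mk χ (r ^ 2) = mk χ (ra ^ 2) * mk χ (rb ^ 2) := by
      rw [mk_pow, h2, mk_pow, mk_pow, mk_mul, mul_pow]
    rw [h3]
    exact mul_mem (ha ra hra) (hb rb hrb)

end Pool.Agent.Work.MP_936a99_q3
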