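import Pool.Agent.Work.MP_936a99_q3.FIN
import Pool.Agent.Work.MP_936a99_q3.IND
import Pool.Agent.Work.MP_936a99_q3.PHI
import Pool.Agent.Work.MP_936a99_q3.STEP
import Pool.Agent.Work.MP_936a99_q3.KER
import Pool.Agent.Work.MP_936a99_q3.KRR
import Pool.Agent.Work.MP_936a99_q3.STAB
import Pool.Agent.Work.MP_936a99_q3.LIFT
import Pool.Agent.Work.MP_936a99_q3.COL
import Pool.Agent.Work.MP_936a99_q3.PIG
import Pool.Agent.Work.MP_936a99_q3.LAM
import Pool.Agent.Work.MP_936a99_q3.SQF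
import Pool.Agent.Work.MP_936a99_q3.WSQ
import Pool.Agent.Work.MP_936a99_q3.GROW
import Pool.Agent.Work.MP_936a99_q3.ADJ
import Pool.Agent.Work.MP_936a99_q3.IDA
import Pool.Agent.Work.MP_936a99_q3.IDB
import Pool.Agent.Work.MP_936a99_q3.IDL
import Pool.Agent.Work.MP_936a99_q3.SML
import Pool.Agent.Work.MP_936a99_q3.NUM3

/-!
# The theorem without hypotheses
-/

namespace Pool.Agent.Work.MP_936a99_q3

theorem main_lemma : Stmt_IND :=
  ind_thm
    (step_thm (pig_thm col_thm) lam_thm sqf_thm wsq_thm (adj_thm grow_thm)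
      (idl_thm ida_thm idb_thm) (sml_thm (pig_thm col_thm) wsq_thm) num3_thm)
    (ker_thm krr_thm stab_thm) lift_thm

theorem all_quadratic : Stmt_FIN := fin_thm main_lemma phi_thm

end Pool.Agent.Work.MP_936a99_q3
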