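import Pool.Agent.Work.MP_936a99_q3.Interface
import Pool.Agent.Work.MP_936a99_q81.Rone
import Pool.Agent.Work.MP_936a99_q81.SPAN
import Pool.Agent.Work.MP_936a99_q81.FACT
import Pool.Agent.Work.MP_936a99_pt.All

/-!
# FIN: assembly
-/

namespace Pool.Agent.Work.MP_936a99_q3

open Matrix Polynomial Pool.Agent.Work.MP_936a99_al_h7 Pool.Agent.Work.MP_936a99_q81

namespace FIN

theorem num {n k p l : ℕ} {x : ℝ} (hn : 2 ≤ n) (hk1 : 1 ≤ k) (hk : k ≤ n) (hp : 1 ≤ p)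
    (hl : 1 ≤ l) (hx : (n : ℝ) ≤ 3 * x) (hx3 : Real.log 3 ≤ x) :
    ((k ^ 2 * (k * (5 * N2 k + 8) * (p * l + 2 * (2 * n ^ 2 + 1) ^ 2)) : ℕ) : ℝ)
      ≤ l * p * x ^ 226 := by
  have hx8 : (2 : ℝ) ≤ x ^ 8 := by
    refine log_three_pow.trans ?_
    gcongr
  have hx0 : 0 ≤ x := (Real.log_nonneg (by norm_num)).trans hx3
  have hpl : 1 ≤ p * l := Nat.mul_pos hp hl
  have e1 : 5 * N2 k + 8 ≤ 73 * k ^ 3 := by
    have h1 : N2 k ≤ 13 * k ^ 3 := by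
      unfold N2
      have h2 : 2 * (k * (4 * k + 2)) + 1 ≤ 13 * k ^ 2 := by nlinarith
      calc k * (2 * (k * (4 * k + 2)) + 1) ≤ k * (13 * k ^ 2) := Nat.mul_le_mul_left _ h2
        _ = 13 * k ^ 3 := by ring
    have h3 : 1 ≤ k ^ 3 := Nat.one_le_pow _ _ hk1
    omega
  have e2 : p * l + 2 * (2 * n ^ 2 + 1) ^ 2 ≤ 19 * n ^ 4 * (p * l) := by
    have h1 : 2 * n ^ 2 + 1 ≤ 3 * n ^ 2 := by nlinarith
    have h2 : (2 * n ^ 2 + 1) ^ 2 ≤ 9 * n ^ 4 := by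
      calc (2 * n ^ 2 + 1) ^ 2 ≤ (3 * n ^ 2) ^ 2 := Nat.pow_le_pow_left h1 2
        _ = 9 * n ^ 4 := by ring
    have h3 : 1 ≤ n ^ 4 := Nat.one_le_pow _ _ (by omega)
    calc p * l + 2 * (2 * n ^ 2 + 1) ^ 2 ≤ p * l + 2 * (9 * n ^ 4) := by omega
      _ = 1 * (p * l) + 18 * (n ^ 4 * 1) := by ring
      _ ≤ n ^ 4 * (p * l) + 18 * (n ^ 4 * (p * l)) := by gcongr
      _ = 19 * n ^ 4 * (p * l) := by ring
  have e3 : k ^ 2 * (k * (5 * N2 k + 8) * (p * l + 2 * (2 * n ^ 2 + 1) ^ 2))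
      ≤ 1387 * n ^ 10 * (p * l) := by
    calc k ^ 2 * (k * (5 * N2 k + 8) * (p * l + 2 * (2 * n ^ 2 + 1) ^ 2))
        ≤ n ^ 2 * (n * (73 * n ^ 3) * (19 * n ^ 4 * (p * l))) := by
          have h1 : 5 * N2 k + 8 ≤ 73 * n ^ 3 := e1.trans (by gcongr)
          gcongr
      _ = 1387 * n ^ 10 * (p * l) := by ring
  calc ((k ^ 2 * (k * (5 * N2 k + 8) * (p * l + 2 * (2 * n ^ 2 + 1) ^ 2)) : ℕ) : ℝ)
      ≤ ((1387 * n ^ 10 * (p * l) : ℕ) : ℝ) := by exact_mod_cast e3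
    _ = 1387 * (n : ℝ) ^ 10 * (p * l) := by push_cast; ring
    _ ≤ 1387 * (3 * x) ^ 10 * (p * l) := by gcongr
    _ = (1387 * 3 ^ 10) * (x ^ 10 * (p * l)) := by ring
    _ ≤ 2 ^ 27 * (x ^ 10 * (p * l)) := by
        gcongr
        norm_num
    _ ≤ (x ^ 8) ^ 27 * (x ^ 10 * (p * l)) := by gcongr
    _ = l * p * x ^ 226 := by ring

end FIN

theorem fin_thm (hIND : Stmt_IND) (hPHI : Stmt_PHI) : Stmt_FIN := by
  obtain ⟨C1, hC1⟩ := Pool.Agent.Work.MP_936a99_pt.final_of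
    Pool.Agent.Work.MP_936a99_pt.fd_thm 1
  refine ⟨C1 + 226, fun n p l hp hp23 A hA w hw c hsq hns g => ?_⟩
  obtain ⟨k, hk, hk1, hkn, hc, u, f, hfu, ⟨f', hf'⟩, ⟨u', hu'⟩, hwc⟩ := fact_thm n p w c hsq hns
  have hspan := span_thm n k p A u f hA hfu ⟨f', hf'⟩ ⟨u', hu'⟩
  have hall := av_all (A := A) hfu (E := k * (5 * N2 k + 8) *
    (p * l + 2 * (2 * n ^ 2 + 1) ^ 2)) hspan (by
      rintro T ⟨h, hh, rfl⟩ m
      have h1 := hIND p hp23 (TT u f h).charpoly k (Matrix.charpoly_monic _)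
        (by rw [Matrix.charpoly_natDegree_eq_dim, Fintype.card_fin]) (C m * X)
      have h2 := hPHI n k p A l ((2 * n ^ 2 + 1) ^ 2) w h hw hh u f hfu c hc hwc _ _ h1
      have h3 : aeval (TT u f h) (C m * X : (ZMod p)[X]) = m • TT u f h := by
        rw [map_mul, aeval_C, aeval_X, ← Algebra.smul_def]
      rwa [h3] at h2)
  obtain ⟨γ, s, h1, h2, h3⟩ := exists_rank_one hfu hf' hu' hk1 hall
  have hn2 : 2 ≤ n := two_le_of_nonscalar hns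
  have hl : 1 ≤ l := by
    rw [Nat.one_le_iff_ne_zero]
    rintro rfl
    obtain ⟨v, hv1, -, hv3⟩ := hw
    have h4 : v = [] := List.length_eq_zero_iff.1 (Nat.le_zero.1 hv1)
    apply hns 1
    rw [← hv3, h4]
    simp
  obtain ⟨hx1, hx2⟩ := logcard (n := n) (p := p) hn2
  have h4 := FIN.num hn2 hk1 hkn hp.out.one_le hl hx2 hx1
  obtain ⟨L', h5, h6⟩ := hC1 n p _ A hA γ h1 s h2 h3 g
  refine ⟨L', h5, h6.trans ?_⟩
  set x : ℝ := Real.log (Nat.card (SLn n (ZMod p))) with hx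
  have hx0 : 0 ≤ x := (Real.log_nonneg (by norm_num)).trans hx1
  calc ((k ^ 2 * (k * (5 * N2 k + 8) * (p * l + 2 * (2 * n ^ 2 + 1) ^ 2)) : ℕ) : ℝ) * x ^ C1
      ≤ (l * p * x ^ 226) * x ^ C1 := by gcongr
    _ = l * p * x ^ (C1 + 226) := by ring

end Pool.Agent.Work.MP_936a99_q3
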