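import Pool.Agent.Work.MP_936a99_q81.Avail

/-!
# Interface: quadratic unipotent elements of arbitrary rank

Paper proof: note 2913 (helper3). Every block proves one proposition `Stmt_XXX` in its own file
`Pool/Agent/Work/MP_936a99_q3/XXX.lean`, importing this file only, as a theorem
`theorem xxx_thm (h1 : Stmt_DEP1) ... : Stmt_XXX`, namespace `Pool.Agent.Work.MP_936a99_q3`
(own lemmas in `namespace XXX` inside it).
-/

namespace Pool.Agent.Work.MP_936a99_q3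

open Matrix Polynomial Pool.Agent.Work.MP_936a99_al_h7 Pool.Agent.Work.MP_936a99_q81

/-- special linear group of size two -/
abbrev S2 (R : Type) [CommRing R] := Matrix.SpecialLinearGroup (Fin 2) R

/-- `[[1, x], [0, 1]]` -/
def U {R : Type} [CommRing R] (x : R) : S2 R :=
  ⟨!![1, x; 0, 1], by simp [Matrix.det_fin_two]⟩

/-- `[[1, 0], [y, 1]]` -/
def Lo {R : Type} [CommRing R] (y : R) : S2 R :=
  ⟨!![1, 0; y, 1], by simp [Matrix.det_fin_two]⟩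

/-- conjugate of `U x` by `Lo b` -/
def V {R : Type} [CommRing R] (b x : R) : S2 R := Lo b * U x * Lo (-b)

/-- the residue class of a polynomial -/
noncomputable abbrev mk {p : ℕ} (m r : (ZMod p)[X]) : AdjoinRoot m := AdjoinRoot.mk m r

/-- the letters `U (a X)` and `Lo b` modulo `m` -/
def Let {p : ℕ} (m : (ZMod p)[X]) : Set (S2 (AdjoinRoot m)) :=
  {g | ∃ a : ZMod p, g = U (mk m (C a * X)) ∨ g = Lo (mk m (C a))}

/-- the units congruent to `1` modulo `X` -/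
noncomputable def Lam {p : ℕ} (m : (ZMod p)[X]) : Subgroup (AdjoinRoot m)ˣ where
  carrier := {l | (l : AdjoinRoot m) - 1 ∈ Ideal.span ({mk m X} : Set (AdjoinRoot m))}
  one_mem' := by simp
  mul_mem' := by
    intro a b ha hb
    rw [Set.mem_ofPred_eq] at ha hb ⊢
    have h : ((a * b : (AdjoinRoot m)ˣ) : AdjoinRoot m) - 1
        = (a : AdjoinRoot m) * ((b : AdjoinRoot m) - 1) + ((a : AdjoinRoot m) - 1) := by
      rw [Units.val_mul]; ring
    rw [h]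
    exact Ideal.add_mem _ (Ideal.mul_mem_left _ _ hb) ha
  inv_mem' := by
    intro a ha
    rw [Set.mem_ofPred_eq] at ha ⊢
    have h : ((a⁻¹ : (AdjoinRoot m)ˣ) : AdjoinRoot m) - 1
        = -((a⁻¹ : (AdjoinRoot m)ˣ) : AdjoinRoot m) * ((a : AdjoinRoot m) - 1) := by
      have h1 : ((a⁻¹ : (AdjoinRoot m)ˣ) : AdjoinRoot m) * (a : AdjoinRoot m) = 1 := by simp
      linear_combination h1
    rw [h]
    exact Ideal.mul_mem_left _ _ ha

theorem mem_Lam {p : ℕ} {m : (ZMod p)[X]} {l : (AdjoinRoot m)ˣ} :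
    l ∈ Lam m ↔ (l : AdjoinRoot m) - 1 ∈ Ideal.span ({mk m X} : Set (AdjoinRoot m)) := Iff.rfl

/-- units `l` (congruent to `1` modulo `X`) such that `[[l, *], [0, *]]` is a word of at most `N`
letters -/
def Dn {p : ℕ} (m : (ZMod p)[X]) (N : ℕ) : Set (AdjoinRoot m)ˣ :=
  {l | l ∈ Lam m ∧ ∃ g : S2 (AdjoinRoot m), Reach (Let m) N g ∧
    (g : Matrix (Fin 2) (Fin 2) (AdjoinRoot m)) 0 0 = l ∧
    (g : Matrix (Fin 2) (Fin 2) (AdjoinRoot m)) 1 0 = 0}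

/-- the algebra generated by the squares of the elements of `Dn (X χ) N`, modulo `χ` -/
noncomputable def WW {p : ℕ} [Fact p.Prime] (χ : (ZMod p)[X]) (N : ℕ) :
    Subalgebra (ZMod p) (AdjoinRoot χ) :=
  Algebra.adjoin (ZMod p) {w | ∃ r : (ZMod p)[X], w = mk χ (r ^ 2) ∧
    ∃ l ∈ Dn (X * χ) N, (l : AdjoinRoot (X * χ)) = mk (X * χ) r}

/-- number of letters needed for `U (X r)`, `r` in the algebra `WW` -/
def N2 (k : ℕ) : ℕ := k * (2 * (k * (4 * k + 2)) + 1)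

/-! ## some facts for everybody -/

theorem finite_adj {p : ℕ} [Fact p.Prime] {m : (ZMod p)[X]} (hm : m.Monic) :
    Module.Finite (ZMod p) (AdjoinRoot m) := (AdjoinRoot.powerBasis' hm).finite

theorem finrank_adj {p : ℕ} [Fact p.Prime] {m : (ZMod p)[X]} (hm : m.Monic) :
    Module.finrank (ZMod p) (AdjoinRoot m) = m.natDegree := by
  rw [(AdjoinRoot.powerBasis' hm).finrank, AdjoinRoot.powerBasis'_dim]

theorem finite_adj' {p : ℕ} [Fact p.Prime] {m : (ZMod p)[X]} (hm : m.Monic) :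
    Finite (AdjoinRoot m) := by
  have := finite_adj hm
  exact Module.finite_of_finite (ZMod p)

theorem card_adj {p : ℕ} [Fact p.Prime] {m : (ZMod p)[X]} (hm : m.Monic) :
    Nat.card (AdjoinRoot m) = p ^ m.natDegree := by
  have := finite_adj hm
  rw [Module.natCard_eq_pow_finrank (K := ZMod p), finrank_adj hm, Nat.card_zmod]

/-- Two elements of a span of one element, written with polynomials. -/
theorem mem_span_mk {p : ℕ} {m e : (ZMod p)[X]} (y : AdjoinRoot m) :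
    y ∈ Ideal.span ({mk m e} : Set (AdjoinRoot m)) ↔ ∃ r : (ZMod p)[X], y = mk m (e * r) := by
  rw [Ideal.mem_span_singleton]
  constructor
  · rintro ⟨z, rfl⟩
    obtain ⟨r, rfl⟩ := AdjoinRoot.mk_surjective z
    exact ⟨r, (map_mul (AdjoinRoot.mk m) e r).symm⟩
  · rintro ⟨r, rfl⟩
    exact ⟨mk m r, map_mul (AdjoinRoot.mk m) e r⟩

/-! ## the blocks -/

/-- COL: proportional columns give an element of `Dn`. (Word of `2 k + 1` letters with first column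
`FF k w`, by induction; then `W'⁻¹ W`.) -/
def Stmt_COL : Prop := ∀ (p : ℕ) [Fact p.Prime] (χ : (ZMod p)[X]) (k : ℕ)
  (w w' : (Fin k → (ZMod p)ˣ × (ZMod p)ˣ) × (ZMod p)ˣ) (l : (AdjoinRoot (X * χ))ˣ),
  l ∈ Lam (X * χ) →
  mk (X * χ) (FF k w).1 = (l : AdjoinRoot (X * χ)) * mk (X * χ) (FF k w').1 →
  mk (X * χ) (FF k w).2 = (l : AdjoinRoot (X * χ)) * mk (X * χ) (FF k w').2 →
  l ∈ Dn (X * χ) (4 * k + 2)

/-- PIG (uses COL): the translates of the set of the columns by representatives of the cosets of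
the group generated by `Dn` are disjoint. -/
def Stmt_PIG : Prop := ∀ (p : ℕ) [Fact p.Prime] (χ : (ZMod p)[X]) (k : ℕ), χ.Monic →
  χ.natDegree = k → (p - 1) ^ (2 * k + 1) * Nat.card (Lam (X * χ)) ≤
    p ^ (2 * k + 1) * Nat.card (Subgroup.closure (Dn (X * χ) (4 * k + 2)))

/-- LAM: there are many units. -/
def Stmt_LAM : Prop := ∀ (p : ℕ) [Fact p.Prime] (χ : (ZMod p)[X]) (k : ℕ), χ.Monic →
  χ.natDegree = k → (p - 1) ^ k ≤ Nat.card (Lam (X * χ))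

/-- SQF: fibres of the squaring map. -/
def Stmt_SQF : Prop := ∀ (p : ℕ) [Fact p.Prime] (χ : (ZMod p)[X]) (k : ℕ), 3 ≤ p → χ.Monic →
  χ.natDegree = k → ∀ (D : Subgroup (AdjoinRoot (X * χ))ˣ) (W : Set (AdjoinRoot χ)),
  (∀ l ∈ D, ∀ r : (ZMod p)[X], mk (X * χ) r = l → mk χ (r ^ 2) ∈ W) →
  Nat.card D ≤ W.ncard * (2 ^ k * p)

/-- WSQ: squares of the elements of the group generated by `Dn` are in `WW`. -/
def Stmt_WSQ : Prop := ∀ (p : ℕ) [Fact p.Prime] (χ : (ZMod p)[X]) (N : ℕ), χ.Monic →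
  ∀ l ∈ Subgroup.closure (Dn (X * χ) N), ∀ r : (ZMod p)[X], mk (X * χ) r = l →
    mk χ (r ^ 2) ∈ WW χ N

/-- GROW: elements of a generated subalgebra as short combinations of short products. -/
def Stmt_GROW : Prop := ∀ (K B : Type) [Field K] [CommRing B] [Algebra K B] [Module.Finite K B]
  (k : ℕ) (S : Set B), Module.finrank K B ≤ k → (1 : B) ∈ S → ∀ x ∈ Algebra.adjoin K S,
  ∃ (a : Fin k → K) (s : Fin k → Fin k → B), (∀ i j, s i j ∈ S) ∧ x = ∑ i, a i • ∏ j, s i j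

/-- ADJ (uses GROW): `U (X r)` is a short word for `r` in `WW`. -/
def Stmt_ADJ : Prop := ∀ (p : ℕ) [Fact p.Prime] (χ : (ZMod p)[X]) (k : ℕ), χ.Monic →
  χ.natDegree = k → ∀ r : (ZMod p)[X], mk χ r ∈ WW χ (4 * k + 2) →
  Reach (Let (X * χ)) (N2 k) (U (mk (X * χ) (X * r)))

/-- IDA: a functional which vanishes on `W` but on few minimal ideals. -/
def Stmt_IDA : Prop := ∀ (p : ℕ) [Fact p.Prime] (χ : (ZMod p)[X]) (k : ℕ), χ.Monic →
  χ.natDegree = k → ∀ W : Submodule (ZMod p) (AdjoinRoot χ),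
  (∀ π : (ZMod p)[X], π.Monic → Irreducible π → π ∣ χ →
    ∃ r : (ZMod p)[X], mk χ (χ / π * r) ∉ W) →
  ∃ θ : Module.Dual (ZMod p) (AdjoinRoot χ), (∀ w ∈ W, θ w = 0) ∧
    p * (((UniqueFactorizationMonoid.normalizedFactors χ).map fun π =>
      open Classical in if ∀ r : (ZMod p)[X], θ (mk χ (χ / π * r)) = 0 then π.natDegree
        else 0).sum) ≤ k

/-- IDB: a subalgebra is isotropic for a functional which vanishes on it. -/
def Stmt_IDB : Prop := ∀ (p : ℕ) [Fact p.Prime] (χ : (ZMod p)[X]) (k : ℕ), χ.Monic →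
  χ.natDegree = k → ∀ (W : Subalgebra (ZMod p) (AdjoinRoot χ))
  (θ : Module.Dual (ZMod p) (AdjoinRoot χ)), (∀ w ∈ W, θ w = 0) →
  2 * Module.finrank (ZMod p) W ≤ k +
    ((UniqueFactorizationMonoid.normalizedFactors χ).map fun π =>
      open Classical in if ∀ r : (ZMod p)[X], θ (mk χ (χ / π * r)) = 0 then π.natDegree
        else 0).sum

/-- IDL (uses IDA, IDB): subalgebras without nonzero ideals. -/
def Stmt_IDL : Prop := ∀ (p : ℕ) [Fact p.Prime] (χ : (ZMod p)[X]) (k : ℕ), χ.Monic →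
  χ.natDegree = k → ∀ W : Subalgebra (ZMod p) (AdjoinRoot χ),
  2 * Module.finrank (ZMod p) W ≤ k + k / p ∨
    ∃ c : (ZMod p)[X], c.Monic ∧ c ∣ χ ∧ c.natDegree < k ∧ ∀ r, mk χ (c * r) ∈ W

/-- SML (uses PIG, WSQ): small degrees. -/
def Stmt_SML : Prop := ∀ (p : ℕ) [Fact p.Prime] (χ : (ZMod p)[X]) (k : ℕ), χ.Monic →
  χ.natDegree = k → 1 ≤ k → 4 * k + 3 ≤ p → WW χ (4 * k + 2) = ⊤

/-- NUM3: numbers. -/
def Stmt_NUM3 : Prop := ∀ p k : ℕ, 23 ≤ p → p < 4 * k + 3 →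
  p ^ (5 * k + 4 + k / p) * 4 ^ k < (p - 1) ^ (6 * k + 2)

/-- STEP (uses PIG, LAM, SQF, WSQ, ADJ, IDL, SML, NUM3) -/
def Stmt_STEP : Prop := ∀ (p : ℕ) [Fact p.Prime] (χ : (ZMod p)[X]) (k : ℕ), 23 ≤ p → χ.Monic →
  χ.natDegree = k → 1 ≤ k → ∃ c : (ZMod p)[X], c.Monic ∧ c ∣ χ ∧ c.natDegree < k ∧
    ∀ r : (ZMod p)[X], Reach (Let (X * χ)) (N2 k) (U (mk (X * χ) (X * (c * r))))

/-- KRR: factorisation in a congruence subgroup. -/
def Stmt_KRR : Prop := ∀ (R : Type) [CommRing R] (I : Ideal R) (z : S2 R) (x : R),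
  IsUnit (2 : R) → (∀ i j, (z : Matrix (Fin 2) (Fin 2) R) i j
    - (1 : Matrix (Fin 2) (Fin 2) R) i j ∈ I) → x ∈ I →
  IsUnit ((z : Matrix (Fin 2) (Fin 2) R) 1 0 + 2 * (z : Matrix (Fin 2) (Fin 2) R) 1 1
    + x * ((z : Matrix (Fin 2) (Fin 2) R) 1 0 + (z : Matrix (Fin 2) (Fin 2) R) 1 1)) →
  ∃ x1 ∈ I, ∃ x2 ∈ I, ∃ x3 ∈ I, ∃ x4 ∈ I, ∃ x5 ∈ I,
    z = U x1 * V 1 x2 * V (-1) x3 * V 2 x4 * V 1 x5

/-- STAB: stable range. -/
def Stmt_STAB : Prop := ∀ (K : Type) [Field K] (m e b g : K[X]), m ≠ 0 →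
  (∀ π : K[X], Irreducible π → π ∣ m → π ∣ b → ¬ π ∣ g) →
  (∀ π : K[X], Irreducible π → π ∣ m → π ∣ e → ¬ π ∣ g) →
  ∃ y : K[X], IsCoprime m (g + e * y * b)

/-- KER (uses KRR, STAB): the kernel of the reduction modulo `X c`. -/
def Stmt_KER : Prop := ∀ (p : ℕ) [Fact p.Prime] (χ c : (ZMod p)[X]) (N : ℕ), 3 ≤ p → χ.Monic →
  c ∣ χ → (∀ r : (ZMod p)[X], Reach (Let (X * χ)) N (U (mk (X * χ) (X * (c * r))))) →
  ∀ z : S2 (AdjoinRoot (X * χ)), (∀ i j, (z : Matrix (Fin 2) (Fin 2) (AdjoinRoot (X * χ))) i j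
    - (1 : Matrix (Fin 2) (Fin 2) (AdjoinRoot (X * χ))) i j ∈
      Ideal.span {mk (X * χ) (X * c)}) → Reach (Let (X * χ)) (5 * N + 8) z

/-- LIFT: lifting words. -/
def Stmt_LIFT : Prop := ∀ (p : ℕ) [Fact p.Prime] (χ c : (ZMod p)[X]) (N : ℕ), c ∣ χ →
  ∀ r : (ZMod p)[X], Reach (Let (X * c)) N (U (mk (X * c) (X * r))) →
  ∃ g : S2 (AdjoinRoot (X * χ)), Reach (Let (X * χ)) N g ∧
    ∀ i j, (g : Matrix (Fin 2) (Fin 2) (AdjoinRoot (X * χ))) i j
      - (U (mk (X * χ) (X * r)) : Matrix (Fin 2) (Fin 2) (AdjoinRoot (X * χ))) i j ∈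
        Ideal.span {mk (X * χ) (X * c)}

/-- IND (uses STEP, KER, LIFT): the main lemma. -/
def Stmt_IND : Prop := ∀ (p : ℕ) [Fact p.Prime], 23 ≤ p → ∀ (χ : (ZMod p)[X]) (k : ℕ), χ.Monic →
  χ.natDegree = k → ∀ r : (ZMod p)[X],
  Reach (Let (X * χ)) (k * (5 * N2 k + 8)) (U (mk (X * χ) (X * r)))

/-- PHI: transfer to the group. -/
def Stmt_PHI : Prop := ∀ (n k p : ℕ) [Fact p.Prime] (A : Set (SLn n (ZMod p))) (l Lh : ℕ)
  (w h : SLn n (ZMod p)), Reach A l w → Reach A Lh h →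
  ∀ (u : Matrix (Fin n) (Fin k) (ZMod p)) (f : Matrix (Fin k) (Fin n) (ZMod p)), f * u = 0 →
  ∀ c : ZMod p, c ≠ 0 → (w : Matrix (Fin n) (Fin n) (ZMod p)) = c • (1 + u * f) →
  ∀ (N : ℕ) (r : (ZMod p)[X]),
  Reach (Let (X * (TT u f h).charpoly)) N (U (mk (X * (TT u f h).charpoly) (X * r))) →
  Av A u f (N * (p * l + 2 * Lh)) (aeval (TT u f h) r)

/-- FIN (uses IND, PHI and the files of `MP_936a99_q81`): the theorem. -/
def Stmt_FIN : Prop := ∃ C : ℕ, ∀ (n p l : ℕ) [Fact p.Prime], 23 ≤ p →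
  ∀ A : Set (SLn n (ZMod p)), Subgroup.closure A = ⊤ → ∀ w : SLn n (ZMod p), Reach A l w →
  ∀ c : ZMod p, ((w : Matrix (Fin n) (Fin n) (ZMod p)) - c • 1) ^ 2 = 0 →
  (∀ d : ZMod p, (w : Matrix (Fin n) (Fin n) (ZMod p)) ≠ d • 1) →
  ∀ g : SLn n (ZMod p), ∃ L : ℕ, Reach A L g ∧
    (L : ℝ) ≤ l * p * Real.log (Nat.card (SLn n (ZMod p))) ^ C

end Pool.Agent.Work.MP_936a99_q3
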