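import Pool.Agent.Work.MP_936a99_q3.Interface

/-!
# SQF: fibres of the squaring map
-/

namespace Pool.Agent.Work.MP_936a99_q3

open Matrix Polynomial Pool.Agent.Work.MP_936a99_al_h7 Pool.Agent.Work.MP_936a99_q81

namespace SQF

variable {K : Type*} [Field K]

theorem coprime_of_primes {a b : K[X]} (ha : a ≠ 0) (h : ∀ π : K[X], Prime π → π ∣ a → ¬ π ∣ b) :
    IsCoprime a b := by
  refine isCoprime_of_prime_dvd (fun h0 => ha h0.1) ?_
  intro π hπ h1
  exact h π hπ h1

theorem split {χ a b : K[X]} (hχ : χ ≠ 0) (hab : χ ∣ a * b)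
    (hp : ∀ π : K[X], Prime π → π ∣ χ → ¬ (π ∣ a ∧ π ∣ b)) :
    ∃ d h : K[X], χ = d * h ∧ d ∣ a ∧ h ∣ b ∧ IsCoprime d h := by
  classical
  set d := EuclideanDomain.gcd a χ with hd
  have hda : d ∣ a := EuclideanDomain.gcd_dvd_left _ _
  have hdχ : d ∣ χ := EuclideanDomain.gcd_dvd_right _ _
  have hd0 : d ≠ 0 := fun h => hχ (by rw [h] at hdχ; exact zero_dvd_iff.1 hdχ)
  obtain ⟨h, hh⟩ := hdχ
  obtain ⟨a', ha'⟩ := hda
  have hcop : IsCoprime a' h := by
    obtain ⟨s, t, hst⟩ : ∃ s t : K[X], d = s * a + t * χ :=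
      ⟨EuclideanDomain.gcdA a χ, EuclideanDomain.gcdB a χ, by
        rw [hd, EuclideanDomain.gcd_eq_gcd_ab a χ]; ring⟩
    refine ⟨s, t, mul_left_cancel₀ hd0 ?_⟩
    calc d * (s * a' + t * h) = s * (d * a') + t * (d * h) := by ring
      _ = s * a + t * χ := by rw [← ha', ← hh]
      _ = d * 1 := by rw [← hst, mul_one]
  have hb : h ∣ b := by
    have h1 : d * h ∣ d * (a' * b) := by
      rw [← hh, ← mul_assoc, ← ha']
      exact hab
    have h2 : h ∣ a' * b := (mul_dvd_mul_iff_left hd0).1 h1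
    exact hcop.symm.dvd_of_dvd_mul_left h2
  refine ⟨d, h, hh, ⟨a', ha'⟩, hb, coprime_of_primes hd0 ?_⟩
  intro π hπ h1 h2
  have h3 : π ∣ χ := by rw [hh]; exact Dvd.dvd.mul_right h1 h
  exact hp π hπ h3 ⟨h1.trans ⟨a', ha'⟩, h2.trans hb⟩

theorem key {χ a b a' b' : K[X]} (hχ : χ ≠ 0) (hab : χ ∣ a * b) (hab' : χ ∣ a' * b')
    (hp : ∀ π : K[X], Prime π → π ∣ χ → ¬ (π ∣ a ∧ π ∣ b))
    (hp' : ∀ π : K[X], Prime π → π ∣ χ → ¬ (π ∣ a' ∧ π ∣ b'))
    (hZ : ∀ π : K[X], Prime π → π ∣ χ → (π ∣ a ↔ π ∣ a')) (hd : a - a' = b - b') :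
    χ ∣ a - a' := by
  obtain ⟨d, h, e1, e2, e3, e4⟩ := split hχ hab hp
  obtain ⟨d', h', e1', e2', e3', e4'⟩ := split hχ hab' hp'
  have hd0 : d ≠ 0 := fun h0 => hχ (by rw [e1, h0, zero_mul])
  have hh0 : h ≠ 0 := fun h0 => hχ (by rw [e1, h0, mul_zero])
  have hdχ : d ∣ χ := ⟨h, e1⟩
  have hhχ : h ∣ χ := ⟨d, by rw [e1, mul_comm]⟩
  have c1 : IsCoprime d h' := by
    refine coprime_of_primes hd0 fun π hπ h1 h2 => ?_
    have h3 : π ∣ χ := h1.trans hdχ
    exact hp' π hπ h3 ⟨(hZ π hπ h3).1 (h1.trans e2), h2.trans e3'⟩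
  have c2 : IsCoprime h d' := by
    refine coprime_of_primes hh0 fun π hπ h1 h2 => ?_
    have h3 : π ∣ χ := h1.trans hhχ
    exact hp π hπ h3 ⟨(hZ π hπ h3).2 (h2.trans e2'), h1.trans e3⟩
  have f1 : d ∣ d' := c1.dvd_of_dvd_mul_right (by rw [← e1']; exact hdχ)
  have f2 : h ∣ h' := c2.dvd_of_dvd_mul_left (by rw [← e1']; exact hhχ)
  rw [e1]
  refine e4.mul_dvd (dvd_sub e2 (f1.trans e2')) ?_
  rw [hd]
  exact dvd_sub e3 (f2.trans e3')

theorem card_primes [DecidableEq K] {χ : K[X]} (hχ : χ ≠ 0) :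
    (UniqueFactorizationMonoid.normalizedFactors χ).toFinset.card ≤ χ.natDegree := by
  classical
  set M := UniqueFactorizationMonoid.normalizedFactors χ with hM
  have h1 : M.toFinset.card ≤ Multiset.card M := Multiset.toFinset_card_le M
  have h0 : (0 : K[X]) ∉ M := UniqueFactorizationMonoid.zero_notMem_normalizedFactors χ
  have h2 : M.prod.natDegree = χ.natDegree := by
    have h3 := UniqueFactorizationMonoid.prod_normalizedFactors hχ
    exact natDegree_eq_of_degree_eq (degree_eq_degree_of_associated h3)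
  rw [natDegree_multiset_prod _ h0] at h2
  have h4 : Multiset.card M ≤ (M.map natDegree).sum := by
    have h5 : Multiset.card M = (M.map fun _ => 1).sum := by simp
    rw [h5]
    refine Multiset.sum_map_le_sum_map _ _ fun π hπ => ?_
    have h6 := UniqueFactorizationMonoid.irreducible_of_normalized_factor π hπ
    exact h6.natDegree_pos
  omega

theorem core {p : ℕ} [hp : Fact p.Prime] {χ m : (ZMod p)[X]} (hm : m = X * χ) {k : ℕ} (hp3 : 3 ≤ p)
    (hχ : χ.Monic) (hk : χ.natDegree = k) (D : Subgroup (AdjoinRoot m)ˣ) (W : Set (AdjoinRoot χ))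
    (hW : ∀ l ∈ D, ∀ r : (ZMod p)[X], mk m r = l → mk χ (r ^ 2) ∈ W) :
    Nat.card D ≤ W.ncard * (2 ^ k * p) := by
  classical
  have hmm : m.Monic := by rw [hm]; exact monic_X.mul hχ
  have hmd : m.natDegree = k + 1 := by
    rw [hm, natDegree_mul X_ne_zero hχ.ne_zero, natDegree_X, hk, Nat.add_comm]
  have hχm : χ ∣ m := ⟨X, by rw [hm, mul_comm]⟩
  have fin1 : Finite (AdjoinRoot m) := finite_adj' hmm
  have fin2 : Finite (AdjoinRoot χ) := finite_adj' hχ
  have ft1 : Fintype (AdjoinRoot m)ˣ := Fintype.ofFinite _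
  have ft2 : Fintype (AdjoinRoot χ) := Fintype.ofFinite _
  -- reduced representatives
  set r : (AdjoinRoot m)ˣ → (ZMod p)[X] := fun l => AdjoinRoot.modByMonicHom hmm (l : AdjoinRoot m)
    with hr
  have hr1 : ∀ l, AdjoinRoot.mk m (r l) = (l : AdjoinRoot m) := fun l =>
    AdjoinRoot.mk_leftInverse hmm _
  have hr2 : ∀ l, ∀ j, k < j → (r l).coeff j = 0 := by
    intro l j hj
    obtain ⟨q, hq⟩ := AdjoinRoot.mk_surjective (l : AdjoinRoot m)
    have h1 : r l = q %ₘ m := by
      rw [hr]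
      show AdjoinRoot.modByMonicHom hmm (l : AdjoinRoot m) = _
      rw [← hq, AdjoinRoot.modByMonicHom_mk]
    have hne : m ≠ 1 := by
      intro h
      rw [h, natDegree_one] at hmd
      omega
    rw [h1]
    have h2 : (q %ₘ m).natDegree < m.natDegree := natDegree_modByMonic_lt _ hmm hne
    exact coeff_eq_zero_of_natDegree_lt (by omega)
  have h2K : (2 : ZMod p) ≠ 0 := by
    intro h
    have h1 : ((2 : ℕ) : ZMod p) = 0 := by exact_mod_cast h
    rw [ZMod.natCast_eq_zero_iff] at h1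
    exact absurd (Nat.le_of_dvd (by norm_num) h1) (by omega)
  have hunit : ∀ (l : (AdjoinRoot m)ˣ) (π : (ZMod p)[X]), Prime π → π ∣ χ → ¬ π ∣ r l := by
    intro l π hπ h1 h2
    obtain ⟨s, hs⟩ := AdjoinRoot.mk_surjective ((l⁻¹ : (AdjoinRoot m)ˣ) : AdjoinRoot m)
    have h3 : m ∣ r l * s - 1 := by
      rw [← AdjoinRoot.mk_eq_zero, map_sub, map_mul, hr1, hs, map_one, Units.mul_inv, sub_self]
    have h4 : π ∣ r l * s - 1 := (h1.trans hχm).trans h3
    have h5 : π ∣ r l * s := Dvd.dvd.mul_right h2 s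
    have h6 : π ∣ 1 := by
      have := dvd_sub h5 h4
      rwa [sub_sub_cancel] at this
    exact hπ.not_dvd_one h6
  set Df : Finset (AdjoinRoot m)ˣ := Finset.univ.filter (fun l => l ∈ D) with hDf
  have hcD : Nat.card D = Df.card := by
    rw [hDf, Nat.card_eq_fintype_card, Fintype.card_subtype]
  set φ : (AdjoinRoot m)ˣ → AdjoinRoot χ := fun l => mk χ (r l ^ 2) with hφ
  have hfib : ∀ w ∈ Df.image φ, (Df.filter (fun l => φ l = w)).card ≤ 2 ^ k * p := by
    intro w hw
    obtain ⟨l0, hl0, hl0w⟩ := Finset.mem_image.1 hw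
    set T := (UniqueFactorizationMonoid.normalizedFactors χ).toFinset with hT
    have hsq : ∀ l, φ l = w → χ ∣ (r l - r l0) * (r l + r l0) := by
      intro l hl
      have h1 : AdjoinRoot.mk χ (r l ^ 2) = AdjoinRoot.mk χ (r l0 ^ 2) := by
        have : φ l = φ l0 := by rw [hl, hl0w]
        exact this
      rw [AdjoinRoot.mk_eq_mk] at h1
      have h2 : (r l - r l0) * (r l + r l0) = r l ^ 2 - r l0 ^ 2 := by ring
      rwa [h2]
    have hno : ∀ l, ∀ π : (ZMod p)[X], Prime π → π ∣ χ →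
        ¬ (π ∣ r l - r l0 ∧ π ∣ r l + r l0) := by
      rintro l π hπ h1 ⟨h2, h3⟩
      have h4 : π ∣ C (2 : ZMod p) * r l0 := by
        have := dvd_sub h3 h2
        have h5 : r l + r l0 - (r l - r l0) = C (2 : ZMod p) * r l0 := by
          rw [show (C (2 : ZMod p)) = (2 : (ZMod p)[X]) from rfl]; ring
        rwa [h5] at this
      rcases hπ.dvd_or_dvd h4 with h5 | h5
      · have h6 : IsUnit (C (2 : ZMod p)) := (isUnit_iff_ne_zero.2 h2K).map C
        exact hπ.not_isUnit (isUnit_of_dvd_unit h5 h6)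
      · exact hunit l0 π hπ h1 h5
    have hinj : Set.InjOn (fun l => (T.filter (fun π => π ∣ r l - r l0), (r l).coeff k))
        (Df.filter (fun l => φ l = w) : Set (AdjoinRoot m)ˣ) := by
      intro l hl l' hl' he
      rw [Finset.mem_coe, Finset.mem_filter] at hl hl'
      have h1 := congrArg Prod.fst he
      have h2 := congrArg Prod.snd he
      dsimp only at h1 h2
      have hZ : ∀ π : (ZMod p)[X], Prime π → π ∣ χ → (π ∣ r l - r l0 ↔ π ∣ r l' - r l0) := by
        intro π hπ hπχ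
        obtain ⟨q, hq, hπq⟩ := UniqueFactorizationMonoid.exists_mem_normalizedFactors_of_dvd
          hχ.ne_zero hπ.irreducible hπχ
        have h3 : (q ∈ T.filter (fun π => π ∣ r l - r l0)) ↔
            (q ∈ T.filter (fun π => π ∣ r l' - r l0)) := by rw [h1]
        rw [Finset.mem_filter, Finset.mem_filter] at h3
        have hqT : q ∈ T := Multiset.mem_toFinset.2 hq
        simp only [hqT, true_and] at h3
        rw [hπq.dvd_iff_dvd_left, hπq.dvd_iff_dvd_left]
        exact h3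
      have h3 : χ ∣ (r l - r l0) - (r l' - r l0) :=
        SQF.key hχ.ne_zero (hsq l hl.2) (hsq l' hl'.2) (hno l) (hno l') hZ (by ring)
      have h4 : χ ∣ r l - r l' := by
        have h5 : (r l - r l0) - (r l' - r l0) = r l - r l' := by ring
        rwa [h5] at h3
      have h5 : r l - r l' = 0 := by
        refine eq_zero_of_dvd_of_degree_lt h4 ?_
        rw [degree_eq_natDegree hχ.ne_zero, hk]
        rw [degree_lt_iff_coeff_zero]
        intro j hj
        rcases Nat.lt_or_ge k j with h6 | h6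
        · rw [coeff_sub, hr2 l j h6, hr2 l' j h6, sub_zero]
        · have h7 : j = k := le_antisymm h6 hj
          rw [h7, coeff_sub, h2, sub_self]
      have h6 : r l = r l' := sub_eq_zero.1 h5
      apply Units.ext
      rw [← hr1 l, ← hr1 l', h6]
    have hmaps : Set.MapsTo (fun l => (T.filter (fun π => π ∣ r l - r l0), (r l).coeff k))
        (Df.filter (fun l => φ l = w) : Set (AdjoinRoot m)ˣ)
        ((T.powerset ×ˢ (Finset.univ : Finset (ZMod p)) : Finset _) : Set _) := by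
      intro l _
      rw [Finset.mem_coe, Finset.mem_product]
      exact ⟨Finset.mem_powerset.2 (Finset.filter_subset _ _), Finset.mem_univ _⟩
    refine (Finset.card_le_card_of_injOn _ hmaps hinj).trans ?_
    rw [Finset.card_product, Finset.card_powerset, Finset.card_univ, ZMod.card]
    refine Nat.mul_le_mul_right _ (Nat.pow_le_pow_right (by norm_num) ?_)
    rw [← hk]
    exact SQF.card_primes hχ.ne_zero
  rw [hcD]
  refine (Finset.card_le_mul_card_image Df _ hfib).trans ?_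
  rw [Nat.mul_comm]
  refine Nat.mul_le_mul_right _ ?_
  rw [← Set.ncard_coe_finset]
  refine Set.ncard_le_ncard ?_ (Set.toFinite _)
  intro w hw
  rw [Finset.mem_coe, Finset.mem_image] at hw
  obtain ⟨l, hl, rfl⟩ := hw
  exact hW l (Finset.mem_filter.1 hl).2 _ (hr1 l)

end SQF

theorem sqf_thm : Stmt_SQF := fun _ _ _ _ hp3 hχ hk D W hW => SQF.core rfl hp3 hχ hk D W hW

end Pool.Agent.Work.MP_936a99_q3
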